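import Mathlib

set_option autoImplicit false

/-!
Counting isomorphism classes of cyclic set systems on `ZMod n`: an isomorphism class contains at most `n`
translation-invariant systems.
-/

namespace Pool.Agent.T2H46.CycIso

open Finset

variable {n : ℕ}

/-- `σ` carries the system `S` onto the system `T`. -/
def Carries (σ : Equiv.Perm (ZMod n)) (S T : Finset (Finset (ZMod n))) : Prop :=
  ∀ b : Finset (ZMod n), b ∈ S ↔ b.map σ.toEmbedding ∈ T

theorem map_mul (σ ρ : Equiv.Perm (ZMod n)) (b : Finset (ZMod n)) :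
    b.map (σ * ρ).toEmbedding = (b.map ρ.toEmbedding).map σ.toEmbedding := by
  rw [Finset.map_map]
  rfl

theorem map_one (b : Finset (ZMod n)) : b.map (1 : Equiv.Perm (ZMod n)).toEmbedding = b :=
  Finset.map_refl

theorem map_map_inv (σ : Equiv.Perm (ZMod n)) (b : Finset (ZMod n)) :
    (b.map (σ⁻¹).toEmbedding).map σ.toEmbedding = b := by
  rw [← map_mul, mul_inv_cancel, map_one]

theorem Carries.mul {σ ρ : Equiv.Perm (ZMod n)} {S T U : Finset (Finset (ZMod n))}
    (h1 : Carries σ T U) (h2 : Carries ρ S T) : Carries (σ * ρ) S U := by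
  intro b
  rw [map_mul, h2 b, h1]

theorem Carries.inv {σ : Equiv.Perm (ZMod n)} {S T : Finset (Finset (ZMod n))}
    (h : Carries σ S T) : Carries σ⁻¹ T S := by
  intro b
  rw [h, map_map_inv]

theorem Carries.one (S : Finset (Finset (ZMod n))) : Carries (1 : Equiv.Perm (ZMod n)) S S := by
  intro b
  rw [map_one]

theorem Carries.unique {σ : Equiv.Perm (ZMod n)} {S T T' : Finset (Finset (ZMod n))}
    (h : Carries σ S T) (h' : Carries σ S T') : T = T' := by
  ext b
  have h1 := h (b.map (σ⁻¹).toEmbedding)
  have h2 := h' (b.map (σ⁻¹).toEmbedding)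
  rw [map_map_inv] at h1 h2
  rw [← h1, ← h2]

/-- the translation by one -/
def tr (n : ℕ) : Equiv.Perm (ZMod n) := Equiv.addRight 1

variable [NeZero n]

theorem comm_tr {ρ : Equiv.Perm (ZMod n)} (h : ρ * tr n = tr n * ρ) {x : ZMod n} (hx : ρ x = x) :
    ρ = 1 := by
  have key : ∀ j : ℕ, ρ (x + j) = x + j := by
    intro j
    induction j with
    | zero => simpa using hx
    | succ j ih =>
      have h1 := congrArg (fun f : Equiv.Perm (ZMod n) => f (x + j)) h
      simp only [Equiv.Perm.mul_apply, tr, Equiv.coe_addRight] at h1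
      rw [Nat.cast_succ, ← add_assoc, h1, ih]
  ext y
  have h2 := key (y - x).val
  rw [ZMod.natCast_zmod_val] at h2
  rw [show y = x + (y - x) by ring, h2]
  simp

open Classical in
/-- At most `n` translation-invariant systems are isomorphic to `S`. -/
theorem card_class_le (S : Finset (Finset (ZMod n))) (C : Finset (Finset (Finset (ZMod n))))
    (hC : ∀ T ∈ C, Carries (tr n) T T ∧ ∃ σ : Equiv.Perm (ZMod n), Carries σ S T) :
    C.card ≤ n := by
  choose! σ hσ using fun T hT => (hC T hT).2
  let A : Finset (Equiv.Perm (ZMod n)) := univ.filter fun α => Carries α S S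
  have hA : 0 < A.card := card_pos.mpr ⟨1, by simp [A, Carries.one]⟩
  have hle : (C ×ˢ A).card ≤ (A ×ˢ (univ : Finset (ZMod n))).card := by
    apply Finset.card_le_card_of_injOn
      (fun p => ((σ p.1 * p.2)⁻¹ * tr n * (σ p.1 * p.2), (σ p.1 * p.2) 0))
    · rintro ⟨T, α⟩ hp
      simp only [coe_product, Set.mem_prod, mem_coe, A, mem_filter, mem_univ, true_and] at hp ⊢
      obtain ⟨hT, hα⟩ := hp
      have h1 : Carries (σ T * α) S T := (hσ T hT).mul hα
      exact ⟨(h1.inv.mul (hC T hT).1).mul h1, trivial⟩
    · rintro ⟨T, α⟩ hp ⟨T', α'⟩ hp' heq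
      simp only [coe_product, Set.mem_prod, mem_coe, A, mem_filter, mem_univ, true_and] at hp hp'
      simp only [Prod.mk.injEq] at heq
      obtain ⟨hT, hα⟩ := hp
      obtain ⟨hT', hα'⟩ := hp'
      obtain ⟨e1, e2⟩ := heq
      have h1 : Carries (σ T * α) S T := (hσ T hT).mul hα
      have h1' : Carries (σ T' * α') S T' := (hσ T' hT').mul hα'
      set u := σ T * α with hu
      set u' := σ T' * α' with hu'
      have hρ : u' * u⁻¹ = 1 := by
        apply comm_tr (x := u 0)
        · calc u' * u⁻¹ * tr n = u' * (u⁻¹ * tr n * u) * u⁻¹ := by group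
            _ = u' * (u'⁻¹ * tr n * u') * u⁻¹ := by rw [e1]
            _ = tr n * (u' * u⁻¹) := by group
        · have h4 : u⁻¹ (u 0) = 0 := by
            rw [← Equiv.Perm.mul_apply, inv_mul_cancel, Equiv.Perm.one_apply]
          rw [Equiv.Perm.mul_apply, h4]
          exact e2.symm
      have huu : u = u' := by
        have := mul_inv_eq_one.mp hρ
        exact this.symm
      have hTT : T = T' := by
        rw [← huu] at h1'
        exact h1.unique h1'
      subst hTT
      have : α = α' := by
        have h3 : σ T * α = σ T * α' := by rw [← hu, ← hu', huu]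
        exact mul_left_cancel h3
      rw [this]
  rw [card_product, card_product, card_univ, ZMod.card, mul_comm A.card] at hle
  exact Nat.le_of_mul_le_mul_right hle hA

/-- If there are `M * n` distinct translation-invariant systems then `M` of them are pairwise
non-isomorphic. -/
theorem exists_nonisomorphic {ι : Type} [Fintype ι] (S : ι → Finset (Finset (ZMod n)))
    (hS : Function.Injective S) (hinv : ∀ i, Carries (tr n) (S i) (S i)) (M : ℕ)
    (hM : M * n ≤ Fintype.card ι) :
    ∃ f : Fin M → ι, ∀ i j, i ≠ j → ¬ ∃ σ, Carries σ (S (f i)) (S (f j)) := by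
  classical
  let r : Setoid ι :=
    { r := fun i j => ∃ σ, Carries σ (S i) (S j)
      iseqv :=
        { refl := fun i => ⟨1, Carries.one _⟩
          symm := fun ⟨σ, h⟩ => ⟨σ⁻¹, h.inv⟩
          trans := fun ⟨σ, h⟩ ⟨ρ, h'⟩ => ⟨ρ * σ, h'.mul h⟩ } }
  have h1 : Fintype.card ι ≤ n * (univ.image (fun i : ι => (Quotient.mk r i))).card := by
    rw [← Finset.card_univ]
    apply Finset.card_le_mul_card_image
    intro q hq
    obtain ⟨i, -, rfl⟩ := Finset.mem_image.mp hq
    rw [← Finset.card_image_of_injective _ hS]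
    apply card_class_le (S i)
    intro T hT
    obtain ⟨j, hj, rfl⟩ := Finset.mem_image.mp hT
    rw [Finset.mem_filter] at hj
    refine ⟨hinv j, ?_⟩
    have h2 : Quotient.mk r i = Quotient.mk r j := hj.2.symm
    exact Quotient.exact h2
  have hn : 0 < n := Nat.pos_of_ne_zero (NeZero.ne n)
  have h2 : M ≤ Fintype.card (Quotient r) := by
    have h3 : (univ.image (fun i : ι => (Quotient.mk r i))).card ≤ Fintype.card (Quotient r) :=
      Finset.card_le_univ _
    have h4 : n * M ≤ n * Fintype.card (Quotient r) := by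
      calc n * M = M * n := Nat.mul_comm _ _
        _ ≤ Fintype.card ι := hM
        _ ≤ n * _ := h1
        _ ≤ _ := Nat.mul_le_mul_left _ h3
    exact Nat.le_of_mul_le_mul_left h4 hn
  have h5 : Fintype.card (Fin M) ≤ Fintype.card (Quotient r) := by simpa using h2
  obtain ⟨g⟩ := Function.Embedding.nonempty_of_card_le h5
  refine ⟨fun i => (g i).out, fun i j hij h => hij ?_⟩
  apply g.injective
  have h6 : Quotient.mk r (g i).out = Quotient.mk r (g j).out := Quotient.sound h
  rwa [Quotient.out_eq, Quotient.out_eq] at h6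

end Pool.Agent.T2H46.CycIso
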