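import Mathlib
import Pool.Agent.T2H46.CycIso

set_option autoImplicit false

/-!
Cyclic Steiner triple systems on `ZMod n` from third point functions.
-/

namespace Pool.Agent.T2H46.CycThird

open Finset Pool.Agent.T2H46.CycIso

variable {n : ℕ}

/-- `t d` is the third point of the block through `0` and `d`. -/
structure IsT (t : ZMod n → ZMod n) : Prop where
  ne_zero : ∀ d, d ≠ 0 → t d ≠ 0
  ne_self : ∀ d, d ≠ 0 → t d ≠ d
  invol : ∀ d, d ≠ 0 → t (t d) = d
  neg : ∀ d, d ≠ 0 → t (-d) = t d - d

/-- the block through `x` and `x + d` -/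
def blk (t : ZMod n → ZMod n) (x d : ZMod n) : Finset (ZMod n) := {x, x + d, x + t d}

theorem IsT.t_neg_t {t : ZMod n → ZMod n} (h : IsT t) {d : ZMod n} (hd : d ≠ 0) :
    t (-t d) = d - t d := by
  rw [h.neg _ (h.ne_zero d hd), h.invol d hd]

theorem IsT.t_sub {t : ZMod n → ZMod n} (h : IsT t) {d : ZMod n} (hd : d ≠ 0) :
    t (t d - d) = -d := by
  rw [← h.neg d hd, h.invol (-d) (neg_ne_zero.mpr hd)]

theorem IsT.t_sub' {t : ZMod n → ZMod n} (h : IsT t) {d : ZMod n} (hd : d ≠ 0) :
    t (d - t d) = -t d := by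
  rw [← h.t_neg_t hd, h.invol _ (neg_ne_zero.mpr (h.ne_zero d hd))]

theorem card_blk {t : ZMod n → ZMod n} (h : IsT t) (x : ZMod n) {d : ZMod n} (hd : d ≠ 0) :
    (blk t x d).card = 3 := by
  unfold blk
  rw [Finset.card_eq_three]
  refine ⟨x, x + d, x + t d, ?_, ?_, ?_, rfl⟩
  · intro e
    exact hd (by simpa using e)
  · intro e
    exact h.ne_zero d hd (by simpa using e)
  · intro e
    exact h.ne_self d hd (add_left_cancel e).symm

/-- a block through `x ≠ y` is the block given by `t (y - x)` -/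
theorem blk_eq {t : ZMod n → ZMod n} (h : IsT t) {z d x y : ZMod n} (hd : d ≠ 0) (hxy : x ≠ y)
    (hx : x ∈ blk t z d) (hy : y ∈ blk t z d) : blk t z d = blk t x (y - x) := by
  unfold blk at *
  simp only [mem_insert, mem_singleton] at hx hy
  have e1 := h.t_neg_t hd
  have e2 := h.t_sub hd
  have e3 := h.t_sub' hd
  have e4 := h.neg d hd
  have e5 := h.invol d hd
  rcases hx with rfl | rfl | rfl <;> rcases hy with rfl | rfl | rfl
  · exact absurd rfl hxy
  · rw [show x + d - x = d by ring, show x + d = x + d from rfl]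
  · rw [show x + t d - x = t d by ring, e5]
    ext w
    simp only [mem_insert, mem_singleton]
    tauto
  · rw [show y - (y + d) = -d by ring, e4, show y + d + -d = y by ring,
      show y + d + (t d - d) = y + t d by ring]
    ext w
    simp only [mem_insert, mem_singleton]
    tauto
  · exact absurd rfl hxy
  · rw [show z + t d - (z + d) = t d - d by ring, e2, show z + d + (t d - d) = z + t d by ring,
      show z + d + -d = z by ring]
    ext w
    simp only [mem_insert, mem_singleton]
    tauto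
  · rw [show y - (y + t d) = -t d by ring, e1, show y + t d + -t d = y by ring,
      show y + t d + (d - t d) = y + d by ring]
    ext w
    simp only [mem_insert, mem_singleton]
    tauto
  · rw [show z + d - (z + t d) = d - t d by ring, e3, show z + t d + (d - t d) = z + d by ring,
      show z + t d + -t d = z by ring]
    ext w
    simp only [mem_insert, mem_singleton]
    tauto
  · exact absurd rfl hxy

variable [NeZero n]

/-- the system of blocks -/
def sys (t : ZMod n → ZMod n) : Finset (Finset (ZMod n)) :=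
  ((univ : Finset (ZMod n)) ×ˢ (univ.erase 0)).image fun p => blk t p.1 p.2

theorem mem_sys {t : ZMod n → ZMod n} {b : Finset (ZMod n)} :
    b ∈ sys t ↔ ∃ x d, d ≠ 0 ∧ b = blk t x d := by
  unfold sys
  simp only [mem_image, mem_product, mem_univ, mem_erase, true_and, and_true, Prod.exists]
  constructor
  · rintro ⟨x, d, hd, rfl⟩
    exact ⟨x, d, hd, rfl⟩
  · rintro ⟨x, d, hd, rfl⟩
    exact ⟨x, d, hd, rfl⟩

theorem sys_card {t : ZMod n → ZMod n} (h : IsT t) : ∀ b ∈ sys t, b.card = 3 := by
  intro b hb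
  obtain ⟨x, d, hd, rfl⟩ := mem_sys.mp hb
  exact card_blk h x hd

theorem sys_unique {t : ZMod n → ZMod n} (h : IsT t) (x y : ZMod n) (hxy : x ≠ y) :
    ∃! b : Finset (ZMod n), b ∈ sys t ∧ x ∈ b ∧ y ∈ b := by
  refine ⟨blk t x (y - x), ⟨mem_sys.mpr ⟨x, y - x, sub_ne_zero.mpr hxy.symm, rfl⟩, ?_, ?_⟩, ?_⟩
  · simp [blk]
  · simp [blk]
  · rintro b ⟨hb, hx, hy⟩
    obtain ⟨z, d, hd, rfl⟩ := mem_sys.mp hb
    exact blk_eq h hd hxy hx hy

omit [NeZero n] in
theorem image_blk (t : ZMod n → ZMod n) (x d c : ZMod n) :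
    (blk t x d).image (fun y => y + c) = blk t (x + c) d := by
  unfold blk
  rw [Finset.image_insert, Finset.image_insert, Finset.image_singleton]
  rw [show x + d + c = x + c + d by ring, show x + t d + c = x + c + t d by ring]

theorem sys_shift (t : ZMod n → ZMod n) : ∀ b ∈ sys t, b.image (fun x => x + 1) ∈ sys t := by
  intro b hb
  obtain ⟨x, d, hd, rfl⟩ := mem_sys.mp hb
  exact mem_sys.mpr ⟨x + 1, d, hd, image_blk t x d 1⟩

theorem sys_carries (t : ZMod n → ZMod n) : Carries (tr n) (sys t) (sys t) := by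
  intro b
  have h1 : ∀ b : Finset (ZMod n), b.map (tr n).toEmbedding = b.image (fun x => x + 1) := by
    intro b
    rw [Finset.map_eq_image]
    rfl
  rw [h1]
  constructor
  · exact sys_shift t b
  · intro hb
    obtain ⟨x, d, hd, hb'⟩ := mem_sys.mp hb
    refine mem_sys.mpr ⟨x - 1, d, hd, ?_⟩
    have h2 : (b.image (fun x => x + 1)).image (fun x => x + (-1)) = b := by
      ext y
      simp only [mem_image, exists_exists_and_eq_and, add_neg_cancel_right, exists_eq_right]
    rw [← h2, hb', image_blk, sub_eq_add_neg]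

theorem sys_injective {t t' : ZMod n → ZMod n} (h : IsT t) (h' : IsT t') (he : sys t = sys t')
    {d : ZMod n} (hd : d ≠ 0) : t d = t' d := by
  have hb : blk t 0 d ∈ sys t' := he ▸ mem_sys.mpr ⟨0, d, hd, rfl⟩
  have hb' : blk t' 0 d ∈ sys t' := mem_sys.mpr ⟨0, d, hd, rfl⟩
  obtain ⟨b, -, hu⟩ := sys_unique h' 0 d hd.symm
  have e1 := hu _ ⟨hb, by simp [blk], by simp [blk]⟩
  have e2 := hu _ ⟨hb', by simp [blk], by simp [blk]⟩
  have e3 : t d ∈ blk t' 0 d := by
    rw [e2, ← e1]
    simp [blk]
  simp only [blk, zero_add, mem_insert, mem_singleton] at e3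
  rcases e3 with e3 | e3 | e3
  · exact absurd e3 (h.ne_zero d hd)
  · exact absurd e3 (h.ne_self d hd)
  · exact e3

end Pool.Agent.T2H46.CycThird
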