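import Mathlib
import Pool.Agent.T2H46.CycThird

set_option autoImplicit false

/-!
From a family of difference triples `(i, β i, i + β i)`, `1 ≤ i ≤ k`, in `ZMod n` with `n = 6 k + 1` or
`n = 6 k + 3`, we obtain `2 ^ k` distinct cyclic Steiner triple systems.
-/

namespace Pool.Agent.T2H46.CycFam

open Finset Pool.Agent.T2H46.CycIso Pool.Agent.T2H46.CycThird

/-- the entries of the difference triple `(i, β i, i + β i)` -/
def v (β : ℕ → ℕ) (i : ℕ) (p : Fin 3) : ℕ := ![i, β i, i + β i] p

/-- the difference triples are disjoint up to sign modulo `n` -/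
structure DF (n k : ℕ) (β : ℕ → ℕ) : Prop where
  pos : ∀ i, 1 ≤ i → i ≤ k → ∀ p, 0 < v β i p
  lt : ∀ i, 1 ≤ i → i ≤ k → ∀ p, v β i p < n
  inj : ∀ i j, 1 ≤ i → i ≤ k → 1 ≤ j → j ≤ k → ∀ p q, v β i p = v β j q → i = j ∧ p = q
  sum : ∀ i j, 1 ≤ i → i ≤ k → 1 ≤ j → j ≤ k → ∀ p q, v β i p + v β j q ≠ n
  card : n = 6 * k + 1 ∨ (n = 6 * k + 3 ∧
    ∀ i, 1 ≤ i → i ≤ k → ∀ p, v β i p ≠ 2 * k + 1 ∧ v β i p ≠ 4 * k + 2)

/-- the third point on the level of indices -/
def tau' : Bool → Fin 3 → Bool → Fin 3 × Bool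
  | false, 0, false => (2, false)
  | false, 2, false => (0, false)
  | false, 0, true => (1, false)
  | false, 1, false => (0, true)
  | false, 2, true => (1, true)
  | false, 1, true => (2, true)
  | true, 0, false => (1, true)
  | true, 1, true => (0, false)
  | true, 2, false => (1, false)
  | true, 1, false => (2, false)
  | true, 0, true => (2, true)
  | true, 2, true => (0, true)

theorem tau'_invol : ∀ e p s, tau' e (tau' e p s).1 (tau' e p s).2 = (p, s) := by decide

theorem tau'_ne : ∀ e p s, tau' e p s ≠ (p, s) := by decide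

theorem tau'_zero : ∀ e e', tau' e 0 false = tau' e' 0 false → e = e' := by decide

/-- the third point on the level of indices -/
def tau {k : ℕ} (ε : Fin k → Bool) (x : Fin k × Fin 3 × Bool) : Fin k × Fin 3 × Bool :=
  (x.1, tau' (ε x.1) x.2.1 x.2.2)

theorem tau_invol {k : ℕ} (ε : Fin k → Bool) (x : Fin k × Fin 3 × Bool) : tau ε (tau ε x) = x := by
  obtain ⟨i, p, s⟩ := x
  simp only [tau]
  rw [tau'_invol]

theorem tau_ne {k : ℕ} (ε : Fin k → Bool) (x : Fin k × Fin 3 × Bool) : tau ε x ≠ x := by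
  obtain ⟨i, p, s⟩ := x
  simp only [tau, ne_eq, Prod.mk.injEq, true_and]
  intro h
  exact tau'_ne (ε i) p s h

section

variable {n k : ℕ} {β : ℕ → ℕ}

/-- the differences -/
def E (n : ℕ) {k : ℕ} (β : ℕ → ℕ) (x : Fin k × Fin 3 × Bool) : ZMod n :=
  if x.2.2 then -((v β (x.1.val + 1) x.2.1 : ℕ) : ZMod n) else ((v β (x.1.val + 1) x.2.1 : ℕ) : ZMod n)

theorem cast_inj {a b : ℕ} (ha : a < n) (hb : b < n) (h : (a : ZMod n) = (b : ZMod n)) : a = b := by
  have := (ZMod.natCast_eq_natCast_iff a b n).mp h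
  rw [Nat.ModEq, Nat.mod_eq_of_lt ha, Nat.mod_eq_of_lt hb] at this
  exact this

theorem cast_sum {a b : ℕ} (ha : a < n) (hb : b < n) (ha0 : 0 < a)
    (h : (a : ZMod n) + (b : ZMod n) = 0) : a + b = n := by
  have h1 : ((a + b : ℕ) : ZMod n) = 0 := by push_cast; exact h
  rw [ZMod.natCast_eq_zero_iff] at h1
  obtain ⟨c, hc⟩ := h1
  rcases c with _ | _ | c
  · omega
  · omega
  · exfalso
    have : n * (c + 1 + 1) = n * c + n + n := by ring
    omega

theorem E_inj (h : DF n k β) : Function.Injective (E n β : Fin k × Fin 3 × Bool → ZMod n) := by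
  rintro ⟨i, p, s⟩ ⟨j, q, r⟩ he
  have hi1 : 1 ≤ i.val + 1 := by omega
  have hi2 : i.val + 1 ≤ k := i.isLt
  have hj1 : 1 ≤ j.val + 1 := by omega
  have hj2 : j.val + 1 ≤ k := j.isLt
  have l1 := h.lt _ hi1 hi2 p
  have l2 := h.lt _ hj1 hj2 q
  have p1 := h.pos _ hi1 hi2 p
  have p2 := h.pos _ hj1 hj2 q
  have key : ((v β (i.val + 1) p : ℕ) : ZMod n) = ((v β (j.val + 1) q : ℕ) : ZMod n) →
      i = j ∧ p = q := by
    intro e
    have := h.inj _ _ hi1 hi2 hj1 hj2 p q (cast_inj l1 l2 e)
    exact ⟨Fin.ext (by omega), this.2⟩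
  have key2 : ((v β (i.val + 1) p : ℕ) : ZMod n) + ((v β (j.val + 1) q : ℕ) : ZMod n) ≠ 0 := by
    intro e
    exact h.sum _ _ hi1 hi2 hj1 hj2 p q (cast_sum l1 l2 p1 e)
  unfold E at he
  cases s <;> cases r <;> simp only [Bool.false_eq_true, if_true, if_false] at he
  · obtain ⟨rfl, rfl⟩ := key he
    rfl
  · exact absurd (by rw [he]; ring) key2
  · exact absurd (by rw [← he]; ring) key2
  · obtain ⟨rfl, rfl⟩ := key (neg_injective he)
    rfl

theorem E_ne_zero (h : DF n k β) (x : Fin k × Fin 3 × Bool) : E n β x ≠ 0 := by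
  obtain ⟨i, p, s⟩ := x
  have hi1 : 1 ≤ i.val + 1 := by omega
  have hi2 : i.val + 1 ≤ k := i.isLt
  have l1 := h.lt _ hi1 hi2 p
  have p1 := h.pos _ hi1 hi2 p
  have key : ((v β (i.val + 1) p : ℕ) : ZMod n) ≠ 0 := by
    intro e
    have := cast_inj (n := n) (b := 0) l1 (by omega) (by simpa using e)
    omega
  unfold E
  cases s <;> simpa using key

theorem E_neg (i : Fin k) (p : Fin 3) (s : Bool) : E n β (i, p, !s) = -E n β (i, p, s) := by
  unfold E
  cases s <;> simp

theorem E_tau (ε : Fin k → Bool) (i : Fin k) (p : Fin 3) (s : Bool) :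
    E n β (tau ε (i, p, !s)) = E n β (tau ε (i, p, s)) - E n β (i, p, s) := by
  unfold tau E
  cases ε i <;> cases s <;> fin_cases p <;> simp [tau', v] <;> ring

open Classical in
/-- the third point function -/
noncomputable def T (n : ℕ) (β : ℕ → ℕ) {k : ℕ} (ε : Fin k → Bool) (d : ZMod n) : ZMod n :=
  if h : ∃ x : Fin k × Fin 3 × Bool, E n β x = d then E n β (tau ε h.choose) else -d

theorem T_E (h : DF n k β) (ε : Fin k → Bool) (x : Fin k × Fin 3 × Bool) :
    T n β ε (E n β x) = E n β (tau ε x) := by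
  unfold T
  have hx : ∃ y : Fin k × Fin 3 × Bool, E n β y = E n β x := ⟨x, rfl⟩
  rw [dif_pos hx, E_inj h hx.choose_spec]

theorem T_else (ε : Fin k → Bool) {d : ZMod n} (hd : ¬ ∃ x : Fin k × Fin 3 × Bool, E n β x = d) :
    T n β ε d = -d := by
  unfold T
  rw [dif_neg hd]

theorem cover [NeZero n] (h : DF n k β) (d : ZMod n) (hd : d ≠ 0)
    (hx : ¬ ∃ x : Fin k × Fin 3 × Bool, E n β x = d) : 3 * d = 0 ∧ 2 * d ≠ 0 := by
  classical
  have hcard : (univ.image (E n β : Fin k × Fin 3 × Bool → ZMod n)).card = 6 * k := by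
    rw [Finset.card_image_of_injective _ (E_inj h)]
    simp
    ring
  have hd' : d ∉ univ.image (E n β : Fin k × Fin 3 × Bool → ZMod n) := by
    simpa using hx
  have h0' : (0 : ZMod n) ∉ univ.image (E n β : Fin k × Fin 3 × Bool → ZMod n) := by
    simp only [mem_image, mem_univ, true_and, not_exists]
    exact fun x => E_ne_zero h x
  rcases h.card with hn | ⟨hn, hv⟩
  · exfalso
    have h1 : (insert d (insert 0 (univ.image (E n β : Fin k × Fin 3 × Bool → ZMod n)))).card
        = 6 * k + 2 := by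
      rw [card_insert_of_notMem, card_insert_of_notMem h0', hcard]
      simp only [mem_insert, not_or]
      exact ⟨hd, hd'⟩
    have h2 := Finset.card_le_univ
      (insert d (insert 0 (univ.image (E n β : Fin k × Fin 3 × Bool → ZMod n))))
    rw [h1, ZMod.card] at h2
    omega
  · have h3n : (3 : ZMod n) * ((2 * k + 1 : ℕ) : ZMod n) = 0 := by
      have : ((6 * k + 3 : ℕ) : ZMod n) = 0 := by
        rw [← hn]
        exact ZMod.natCast_self n
      rw [← this]
      push_cast
      ring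
    have hE : ∀ (c : ℕ), (c = 2 * k + 1 ∨ c = 4 * k + 2) →
        (c : ZMod n) ∉ univ.image (E n β : Fin k × Fin 3 × Bool → ZMod n) := by
      intro c hc hcE
      simp only [mem_image, mem_univ, true_and] at hcE
      obtain ⟨⟨i, p, s⟩, he⟩ := hcE
      have hi1 : 1 ≤ i.val + 1 := by omega
      have hi2 : i.val + 1 ≤ k := i.isLt
      have l1 := h.lt _ hi1 hi2 p
      have p1 := h.pos _ hi1 hi2 p
      have hv1 := hv _ hi1 hi2 p
      unfold E at he
      cases s
      · simp only [Bool.false_eq_true, if_false] at he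
        have := cast_inj l1 (by omega) he
        omega
      · simp only [if_true] at he
        have h4 : ((v β (i.val + 1) p : ℕ) : ZMod n) + (c : ZMod n) = 0 := by
          rw [← he]; ring
        have := cast_sum l1 (by omega) p1 h4
        omega
    have hne : ((4 * k + 2 : ℕ) : ZMod n) ≠ ((2 * k + 1 : ℕ) : ZMod n) := by
      intro e
      have := cast_inj (by omega) (by omega) e
      omega
    have hz1 : ((2 * k + 1 : ℕ) : ZMod n) ≠ 0 := by
      intro e
      have := cast_inj (n := n) (a := 2 * k + 1) (b := 0) (by omega) (by omega)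
        (by rw [e]; simp)
      omega
    have hz2 : ((4 * k + 2 : ℕ) : ZMod n) ≠ 0 := by
      intro e
      have := cast_inj (n := n) (a := 4 * k + 2) (b := 0) (by omega) (by omega)
        (by rw [e]; simp)
      omega
    by_cases hd1 : d = ((2 * k + 1 : ℕ) : ZMod n)
    · refine ⟨by rw [hd1, h3n], ?_⟩
      rw [hd1]
      have : (2 : ZMod n) * ((2 * k + 1 : ℕ) : ZMod n) = ((4 * k + 2 : ℕ) : ZMod n) := by
        push_cast; ring
      rw [this]
      exact hz2
    by_cases hd2 : d = ((4 * k + 2 : ℕ) : ZMod n)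
    · have e4 : ((4 * k + 2 : ℕ) : ZMod n) = 2 * ((2 * k + 1 : ℕ) : ZMod n) := by
        push_cast; ring
      refine ⟨?_, ?_⟩
      · rw [hd2, e4]
        linear_combination 2 * h3n
      · rw [hd2, e4]
        intro e
        apply hz1
        linear_combination e - h3n
    · exfalso
      have h1 : (insert d (insert ((4 * k + 2 : ℕ) : ZMod n) (insert ((2 * k + 1 : ℕ) : ZMod n)
          (insert 0 (univ.image (E n β : Fin k × Fin 3 × Bool → ZMod n)))))).card
          = 6 * k + 4 := by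
        rw [card_insert_of_notMem, card_insert_of_notMem, card_insert_of_notMem,
          card_insert_of_notMem h0', hcard]
        · simp only [mem_insert, not_or]
          exact ⟨hz1, hE _ (Or.inl rfl)⟩
        · simp only [mem_insert, not_or]
          exact ⟨hne, hz2, hE _ (Or.inr rfl)⟩
        · simp only [mem_insert, not_or]
          exact ⟨hd2, hd1, hd, hd'⟩
      have h2 := Finset.card_le_univ
        (insert d (insert ((4 * k + 2 : ℕ) : ZMod n) (insert ((2 * k + 1 : ℕ) : ZMod n)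
          (insert 0 (univ.image (E n β : Fin k × Fin 3 × Bool → ZMod n))))))
      rw [h1, ZMod.card] at h2
      omega

theorem isT [NeZero n] (h : DF n k β) (ε : Fin k → Bool) : IsT (T n β ε) := by
  have hneg : ∀ d : ZMod n, (¬ ∃ x : Fin k × Fin 3 × Bool, E n β x = d) →
      ¬ ∃ x : Fin k × Fin 3 × Bool, E n β x = -d := by
    rintro d hd ⟨⟨i, p, s⟩, he⟩
    exact hd ⟨(i, p, !s), by rw [E_neg, he, neg_neg]⟩
  constructor
  · intro d hd
    by_cases hx : ∃ x : Fin k × Fin 3 × Bool, E n β x = d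
    · obtain ⟨x, rfl⟩ := hx
      rw [T_E h]
      exact E_ne_zero h _
    · rw [T_else ε hx]
      exact neg_ne_zero.mpr hd
  · intro d hd
    by_cases hx : ∃ x : Fin k × Fin 3 × Bool, E n β x = d
    · obtain ⟨x, rfl⟩ := hx
      rw [T_E h]
      intro e
      exact tau_ne ε x (E_inj h e)
    · rw [T_else ε hx]
      intro e
      apply (cover h d hd hx).2
      linear_combination -e
  · intro d hd
    by_cases hx : ∃ x : Fin k × Fin 3 × Bool, E n β x = d
    · obtain ⟨x, rfl⟩ := hx
      rw [T_E h, T_E h, tau_invol]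
    · rw [T_else ε hx, T_else ε (hneg d hx), neg_neg]
  · intro d hd
    by_cases hx : ∃ x : Fin k × Fin 3 × Bool, E n β x = d
    · obtain ⟨⟨i, p, s⟩, rfl⟩ := hx
      rw [← E_neg, T_E h, T_E h, E_tau]
    · rw [T_else ε hx, T_else ε (hneg d hx)]
      have := (cover h d hd hx).1
      linear_combination this

theorem sys_T_injective [NeZero n] (h : DF n k β) :
    Function.Injective fun ε : Fin k → Bool => sys (T n β ε) := by
  intro ε ε' he
  funext i
  have h1 := sys_injective (isT h ε) (isT h ε') he (E_ne_zero h (i, 0, false))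
  rw [T_E h, T_E h] at h1
  have h2 := E_inj h h1
  simp only [tau, Prod.mk.injEq, true_and] at h2
  exact tau'_zero _ _ h2

/-- the conclusion for one order -/
theorem main_of_DF (hn : n ≠ 0) (h : DF n k β) (M : ℕ) (hM : M * n ≤ 2 ^ k) :
    ∃ B : Fin M → Finset (Finset (ZMod n)),
        (∀ i, (∀ b ∈ B i, b.card = 3) ∧
          (∀ x y : ZMod n, x ≠ y → ∃! b : Finset (ZMod n), b ∈ B i ∧ x ∈ b ∧ y ∈ b) ∧
          (∀ b ∈ B i, b.image (fun x => x + 1) ∈ B i)) ∧
        (∀ i j, i ≠ j → ¬ ∃ σ : Equiv.Perm (ZMod n),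
          ∀ b : Finset (ZMod n), b ∈ B i ↔ b.map σ.toEmbedding ∈ B j) := by
  have : NeZero n := ⟨hn⟩
  obtain ⟨f, hf⟩ := exists_nonisomorphic (fun ε : Fin k → Bool => sys (T n β ε))
    (sys_T_injective h) (fun ε => sys_carries _) M (by simpa using hM)
  refine ⟨fun i => sys (T n β (f i)), fun i => ⟨sys_card (isT h _), sys_unique (isT h _),
    sys_shift _⟩, hf⟩

end

end Pool.Agent.T2H46.CycFam
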