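import Mathlib
import Pool.Agent.T2H46.CycFam

set_option autoImplicit false

/-!
Peltesohn's difference triples for `n = 18 s + 1, 7, 13, 3, 9, 15`.
-/

namespace Pool.Agent.T2H46.CycPelt

open Pool.Agent.T2H46.CycFam

theorem DF_of {n k : ℕ} {β : ℕ → ℕ} (h0 : 2 * k < n)
    (h1 : ∀ i, 1 ≤ i → i ≤ k → k < β i ∧ i + β i < n)
    (h2 : ∀ i j, 1 ≤ i → i ≤ k → 1 ≤ j → j ≤ k → β i = β j → i = j)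
    (h3 : ∀ i j, 1 ≤ i → i ≤ k → 1 ≤ j → j ≤ k → i + β i = j + β j → i = j)
    (h4 : ∀ i j, 1 ≤ i → i ≤ k → 1 ≤ j → j ≤ k → β i ≠ j + β j)
    (h5 : ∀ i j, 1 ≤ i → i ≤ k → 1 ≤ j → j ≤ k → i + β j ≠ n ∧ i + (j + β j) ≠ n)
    (h6 : ∀ i j, 1 ≤ i → i ≤ k → 1 ≤ j → j ≤ k → β i + β j ≠ n ∧ β i + (j + β j) ≠ n)
    (h7 : ∀ i j, 1 ≤ i → i ≤ k → 1 ≤ j → j ≤ k → (i + β i) + (j + β j) ≠ n)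
    (h8 : n = 6 * k + 1 ∨ (n = 6 * k + 3 ∧ ∀ i, 1 ≤ i → i ≤ k → β i ≠ 2 * k + 1 ∧ β i ≠ 4 * k + 2 ∧
      i + β i ≠ 2 * k + 1 ∧ i + β i ≠ 4 * k + 2)) : DF n k β := by
  constructor
  · intro i hi1 hi2 p
    have a1 := h1 i hi1 hi2
    fin_cases p <;> simp [v] <;> omega
  · intro i hi1 hi2 p
    have a1 := h1 i hi1 hi2
    fin_cases p <;> simp [v] <;> omega
  · intro i j hi1 hi2 hj1 hj2 p q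
    have a1 := h1 i hi1 hi2
    have a2 := h1 j hj1 hj2
    have a3 := h2 i j hi1 hi2 hj1 hj2
    have a4 := h3 i j hi1 hi2 hj1 hj2
    have a5 := h4 i j hi1 hi2 hj1 hj2
    have a6 := h4 j i hj1 hj2 hi1 hi2
    fin_cases p <;> fin_cases q <;> simp [v] <;> omega
  · intro i j hi1 hi2 hj1 hj2 p q
    have a1 := h1 i hi1 hi2
    have a2 := h1 j hj1 hj2
    have a3 := h5 i j hi1 hi2 hj1 hj2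
    have a4 := h5 j i hj1 hj2 hi1 hi2
    have a5 := h6 i j hi1 hi2 hj1 hj2
    have a6 := h6 j i hj1 hj2 hi1 hi2
    have a7 := h7 i j hi1 hi2 hj1 hj2
    fin_cases p <;> fin_cases q <;> simp [v] <;> omega
  · rcases h8 with h8 | ⟨h8, h9⟩
    · exact Or.inl h8
    · refine Or.inr ⟨h8, fun i hi1 hi2 p => ?_⟩
      have a1 := h9 i hi1 hi2
      fin_cases p <;> simp [v] <;> omega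

/-! ### `n = 18 s + 1` -/

def β1 (s i : ℕ) : ℕ :=
  if i = 3 * s then 3 * s + 1
  else if i % 3 = 1 then 4 * s + 1 - (i - 1) / 3
  else if i % 3 = 2 then 8 * s - (i - 1) / 3
  else 6 * s - 1 - 2 * ((i - 1) / 3)

theorem c1 (s i : ℕ) (h1 : 1 ≤ i) (h2 : i ≤ 3 * s) :
    (i = 3 * s ∧ β1 s i = 3 * s + 1) ∨
    (∃ r, r < s ∧ i = 3 * r + 1 ∧ β1 s i + r = 4 * s + 1) ∨
    (∃ r, r < s ∧ i = 3 * r + 2 ∧ β1 s i + r = 8 * s) ∨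
    (∃ r, r + 1 < s ∧ i = 3 * r + 3 ∧ β1 s i + 2 * r + 1 = 6 * s) := by
  unfold β1
  split_ifs with a b c
  · exact Or.inl ⟨a, rfl⟩
  · exact Or.inr (Or.inl ⟨(i - 1) / 3, by omega, by omega, by omega⟩)
  · exact Or.inr (Or.inr (Or.inl ⟨(i - 1) / 3, by omega, by omega, by omega⟩))
  · exact Or.inr (Or.inr (Or.inr ⟨(i - 1) / 3, by omega, by omega, by omega⟩))

theorem fam1 (s : ℕ) (hs : 1 ≤ s) : DF (18 * s + 1) (3 * s) (β1 s) := by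
  apply DF_of
  · omega
  · intro i h1 h2
    rcases c1 s i h1 h2 with ⟨a1, a2⟩ | ⟨r, a1, a2, a3⟩ | ⟨r, a1, a2, a3⟩ | ⟨r, a1, a2, a3⟩ <;> omega
  · intro i j h1 h2 h3 h4
    rcases c1 s i h1 h2 with ⟨a1, a2⟩ | ⟨r, a1, a2, a3⟩ | ⟨r, a1, a2, a3⟩ | ⟨r, a1, a2, a3⟩ <;>
    rcases c1 s j h3 h4 with ⟨b1, b2⟩ | ⟨q, b1, b2, b3⟩ | ⟨q, b1, b2, b3⟩ | ⟨q, b1, b2, b3⟩ <;> omega
  · intro i j h1 h2 h3 h4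
    rcases c1 s i h1 h2 with ⟨a1, a2⟩ | ⟨r, a1, a2, a3⟩ | ⟨r, a1, a2, a3⟩ | ⟨r, a1, a2, a3⟩ <;>
    rcases c1 s j h3 h4 with ⟨b1, b2⟩ | ⟨q, b1, b2, b3⟩ | ⟨q, b1, b2, b3⟩ | ⟨q, b1, b2, b3⟩ <;> omega
  · intro i j h1 h2 h3 h4
    rcases c1 s i h1 h2 with ⟨a1, a2⟩ | ⟨r, a1, a2, a3⟩ | ⟨r, a1, a2, a3⟩ | ⟨r, a1, a2, a3⟩ <;>
    rcases c1 s j h3 h4 with ⟨b1, b2⟩ | ⟨q, b1, b2, b3⟩ | ⟨q, b1, b2, b3⟩ | ⟨q, b1, b2, b3⟩ <;> omega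
  · intro i j h1 h2 h3 h4
    rcases c1 s j h3 h4 with ⟨b1, b2⟩ | ⟨q, b1, b2, b3⟩ | ⟨q, b1, b2, b3⟩ | ⟨q, b1, b2, b3⟩ <;> omega
  · intro i j h1 h2 h3 h4
    rcases c1 s i h1 h2 with ⟨a1, a2⟩ | ⟨r, a1, a2, a3⟩ | ⟨r, a1, a2, a3⟩ | ⟨r, a1, a2, a3⟩ <;>
    rcases c1 s j h3 h4 with ⟨b1, b2⟩ | ⟨q, b1, b2, b3⟩ | ⟨q, b1, b2, b3⟩ | ⟨q, b1, b2, b3⟩ <;> omega
  · intro i j h1 h2 h3 h4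
    rcases c1 s i h1 h2 with ⟨a1, a2⟩ | ⟨r, a1, a2, a3⟩ | ⟨r, a1, a2, a3⟩ | ⟨r, a1, a2, a3⟩ <;>
    rcases c1 s j h3 h4 with ⟨b1, b2⟩ | ⟨q, b1, b2, b3⟩ | ⟨q, b1, b2, b3⟩ | ⟨q, b1, b2, b3⟩ <;> omega
  · left
    omega

/-! ### `n = 18 s + 7` -/

def β7 (s i : ℕ) : ℕ :=
  if i = 3 * s + 1 then 4 * s + 2
  else if i % 3 = 1 then 8 * s + 3 - (i - 1) / 3
  else if i % 3 = 2 then 6 * s + 1 - 2 * ((i - 1) / 3)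
  else 4 * s + 1 - (i - 1) / 3

theorem c7 (s i : ℕ) (h1 : 1 ≤ i) (h2 : i ≤ 3 * s + 1) :
    (i = 3 * s + 1 ∧ β7 s i = 4 * s + 2) ∨
    (∃ r, r < s ∧ i = 3 * r + 1 ∧ β7 s i + r = 8 * s + 3) ∨
    (∃ r, r < s ∧ i = 3 * r + 2 ∧ β7 s i + 2 * r = 6 * s + 1) ∨
    (∃ r, r < s ∧ i = 3 * r + 3 ∧ β7 s i + r = 4 * s + 1) := by
  unfold β7
  split_ifs with a b c
  · exact Or.inl ⟨a, rfl⟩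
  · exact Or.inr (Or.inl ⟨(i - 1) / 3, by omega, by omega, by omega⟩)
  · exact Or.inr (Or.inr (Or.inl ⟨(i - 1) / 3, by omega, by omega, by omega⟩))
  · exact Or.inr (Or.inr (Or.inr ⟨(i - 1) / 3, by omega, by omega, by omega⟩))

theorem fam7 (s : ℕ) (hs : 1 ≤ s) : DF (18 * s + 7) (3 * s + 1) (β7 s) := by
  apply DF_of
  · omega
  · intro i h1 h2
    rcases c7 s i h1 h2 with ⟨a1, a2⟩ | ⟨r, a1, a2, a3⟩ | ⟨r, a1, a2, a3⟩ | ⟨r, a1, a2, a3⟩ <;> omega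
  · intro i j h1 h2 h3 h4
    rcases c7 s i h1 h2 with ⟨a1, a2⟩ | ⟨r, a1, a2, a3⟩ | ⟨r, a1, a2, a3⟩ | ⟨r, a1, a2, a3⟩ <;>
    rcases c7 s j h3 h4 with ⟨b1, b2⟩ | ⟨q, b1, b2, b3⟩ | ⟨q, b1, b2, b3⟩ | ⟨q, b1, b2, b3⟩ <;> omega
  · intro i j h1 h2 h3 h4
    rcases c7 s i h1 h2 with ⟨a1, a2⟩ | ⟨r, a1, a2, a3⟩ | ⟨r, a1, a2, a3⟩ | ⟨r, a1, a2, a3⟩ <;>
    rcases c7 s j h3 h4 with ⟨b1, b2⟩ | ⟨q, b1, b2, b3⟩ | ⟨q, b1, b2, b3⟩ | ⟨q, b1, b2, b3⟩ <;> omega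
  · intro i j h1 h2 h3 h4
    rcases c7 s i h1 h2 with ⟨a1, a2⟩ | ⟨r, a1, a2, a3⟩ | ⟨r, a1, a2, a3⟩ | ⟨r, a1, a2, a3⟩ <;>
    rcases c7 s j h3 h4 with ⟨b1, b2⟩ | ⟨q, b1, b2, b3⟩ | ⟨q, b1, b2, b3⟩ | ⟨q, b1, b2, b3⟩ <;> omega
  · intro i j h1 h2 h3 h4
    rcases c7 s j h3 h4 with ⟨b1, b2⟩ | ⟨q, b1, b2, b3⟩ | ⟨q, b1, b2, b3⟩ | ⟨q, b1, b2, b3⟩ <;> omega
  · intro i j h1 h2 h3 h4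
    rcases c7 s i h1 h2 with ⟨a1, a2⟩ | ⟨r, a1, a2, a3⟩ | ⟨r, a1, a2, a3⟩ | ⟨r, a1, a2, a3⟩ <;>
    rcases c7 s j h3 h4 with ⟨b1, b2⟩ | ⟨q, b1, b2, b3⟩ | ⟨q, b1, b2, b3⟩ | ⟨q, b1, b2, b3⟩ <;> omega
  · intro i j h1 h2 h3 h4
    rcases c7 s i h1 h2 with ⟨a1, a2⟩ | ⟨r, a1, a2, a3⟩ | ⟨r, a1, a2, a3⟩ | ⟨r, a1, a2, a3⟩ <;>
    rcases c7 s j h3 h4 with ⟨b1, b2⟩ | ⟨q, b1, b2, b3⟩ | ⟨q, b1, b2, b3⟩ | ⟨q, b1, b2, b3⟩ <;> omega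
  · left
    omega

/-! ### `n = 18 s + 13` -/

def β13 (s i : ℕ) : ℕ :=
  if i = 3 * s + 2 then 7 * s + 5
  else if i % 3 = 1 then 4 * s + 3 - (i - 1) / 3
  else if i % 3 = 2 then 6 * s + 3 - 2 * ((i - 1) / 3)
  else 8 * s + 5 - (i - 1) / 3

theorem c13 (s i : ℕ) (h1 : 1 ≤ i) (h2 : i ≤ 3 * s + 2) :
    (i = 3 * s + 2 ∧ β13 s i = 7 * s + 5) ∨
    (∃ r, r < s + 1 ∧ i = 3 * r + 1 ∧ β13 s i + r = 4 * s + 3) ∨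
    (∃ r, r < s ∧ i = 3 * r + 2 ∧ β13 s i + 2 * r = 6 * s + 3) ∨
    (∃ r, r < s ∧ i = 3 * r + 3 ∧ β13 s i + r = 8 * s + 5) := by
  unfold β13
  split_ifs with a b c
  · exact Or.inl ⟨a, rfl⟩
  · exact Or.inr (Or.inl ⟨(i - 1) / 3, by omega, by omega, by omega⟩)
  · exact Or.inr (Or.inr (Or.inl ⟨(i - 1) / 3, by omega, by omega, by omega⟩))
  · exact Or.inr (Or.inr (Or.inr ⟨(i - 1) / 3, by omega, by omega, by omega⟩))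

theorem fam13 (s : ℕ) : DF (18 * s + 13) (3 * s + 2) (β13 s) := by
  apply DF_of
  · omega
  · intro i h1 h2
    rcases c13 s i h1 h2 with ⟨a1, a2⟩ | ⟨r, a1, a2, a3⟩ | ⟨r, a1, a2, a3⟩ | ⟨r, a1, a2, a3⟩ <;> omega
  · intro i j h1 h2 h3 h4
    rcases c13 s i h1 h2 with ⟨a1, a2⟩ | ⟨r, a1, a2, a3⟩ | ⟨r, a1, a2, a3⟩ | ⟨r, a1, a2, a3⟩ <;>
    rcases c13 s j h3 h4 with ⟨b1, b2⟩ | ⟨q, b1, b2, b3⟩ | ⟨q, b1, b2, b3⟩ | ⟨q, b1, b2, b3⟩ <;> omega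
  · intro i j h1 h2 h3 h4
    rcases c13 s i h1 h2 with ⟨a1, a2⟩ | ⟨r, a1, a2, a3⟩ | ⟨r, a1, a2, a3⟩ | ⟨r, a1, a2, a3⟩ <;>
    rcases c13 s j h3 h4 with ⟨b1, b2⟩ | ⟨q, b1, b2, b3⟩ | ⟨q, b1, b2, b3⟩ | ⟨q, b1, b2, b3⟩ <;> omega
  · intro i j h1 h2 h3 h4
    rcases c13 s i h1 h2 with ⟨a1, a2⟩ | ⟨r, a1, a2, a3⟩ | ⟨r, a1, a2, a3⟩ | ⟨r, a1, a2, a3⟩ <;>
    rcases c13 s j h3 h4 with ⟨b1, b2⟩ | ⟨q, b1, b2, b3⟩ | ⟨q, b1, b2, b3⟩ | ⟨q, b1, b2, b3⟩ <;> omega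
  · intro i j h1 h2 h3 h4
    rcases c13 s j h3 h4 with ⟨b1, b2⟩ | ⟨q, b1, b2, b3⟩ | ⟨q, b1, b2, b3⟩ | ⟨q, b1, b2, b3⟩ <;> omega
  · intro i j h1 h2 h3 h4
    rcases c13 s i h1 h2 with ⟨a1, a2⟩ | ⟨r, a1, a2, a3⟩ | ⟨r, a1, a2, a3⟩ | ⟨r, a1, a2, a3⟩ <;>
    rcases c13 s j h3 h4 with ⟨b1, b2⟩ | ⟨q, b1, b2, b3⟩ | ⟨q, b1, b2, b3⟩ | ⟨q, b1, b2, b3⟩ <;> omega
  · intro i j h1 h2 h3 h4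
    rcases c13 s i h1 h2 with ⟨a1, a2⟩ | ⟨r, a1, a2, a3⟩ | ⟨r, a1, a2, a3⟩ | ⟨r, a1, a2, a3⟩ <;>
    rcases c13 s j h3 h4 with ⟨b1, b2⟩ | ⟨q, b1, b2, b3⟩ | ⟨q, b1, b2, b3⟩ | ⟨q, b1, b2, b3⟩ <;> omega
  · left
    omega

/-! ### `n = 18 s + 3` -/

def β3 (s i : ℕ) : ℕ :=
  if i % 3 = 1 then 8 * s + 1 - (i - 1) / 3
  else if i % 3 = 2 then 4 * s - (i - 1) / 3
  else 6 * s - 1 - 2 * ((i - 1) / 3)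

theorem c3 (s i : ℕ) (h1 : 1 ≤ i) (h2 : i ≤ 3 * s) :
    (∃ r, r < s ∧ i = 3 * r + 1 ∧ β3 s i + r = 8 * s + 1) ∨
    (∃ r, r < s ∧ i = 3 * r + 2 ∧ β3 s i + r = 4 * s) ∨
    (∃ r, r < s ∧ i = 3 * r + 3 ∧ β3 s i + 2 * r + 1 = 6 * s) := by
  unfold β3
  split_ifs with b c
  · exact (Or.inl ⟨(i - 1) / 3, by omega, by omega, by omega⟩)
  · exact (Or.inr (Or.inl ⟨(i - 1) / 3, by omega, by omega, by omega⟩))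
  · exact (Or.inr (Or.inr ⟨(i - 1) / 3, by omega, by omega, by omega⟩))

theorem fam3 (s : ℕ) : DF (18 * s + 3) (3 * s) (β3 s) := by
  apply DF_of
  · omega
  · intro i h1 h2
    rcases c3 s i h1 h2 with ⟨r, a1, a2, a3⟩ | ⟨r, a1, a2, a3⟩ | ⟨r, a1, a2, a3⟩ <;> omega
  · intro i j h1 h2 h3 h4
    rcases c3 s i h1 h2 with ⟨r, a1, a2, a3⟩ | ⟨r, a1, a2, a3⟩ | ⟨r, a1, a2, a3⟩ <;>
    rcases c3 s j h3 h4 with ⟨q, b1, b2, b3⟩ | ⟨q, b1, b2, b3⟩ | ⟨q, b1, b2, b3⟩ <;> omega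
  · intro i j h1 h2 h3 h4
    rcases c3 s i h1 h2 with ⟨r, a1, a2, a3⟩ | ⟨r, a1, a2, a3⟩ | ⟨r, a1, a2, a3⟩ <;>
    rcases c3 s j h3 h4 with ⟨q, b1, b2, b3⟩ | ⟨q, b1, b2, b3⟩ | ⟨q, b1, b2, b3⟩ <;> omega
  · intro i j h1 h2 h3 h4
    rcases c3 s i h1 h2 with ⟨r, a1, a2, a3⟩ | ⟨r, a1, a2, a3⟩ | ⟨r, a1, a2, a3⟩ <;>
    rcases c3 s j h3 h4 with ⟨q, b1, b2, b3⟩ | ⟨q, b1, b2, b3⟩ | ⟨q, b1, b2, b3⟩ <;> omega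
  · intro i j h1 h2 h3 h4
    rcases c3 s j h3 h4 with ⟨q, b1, b2, b3⟩ | ⟨q, b1, b2, b3⟩ | ⟨q, b1, b2, b3⟩ <;> omega
  · intro i j h1 h2 h3 h4
    rcases c3 s i h1 h2 with ⟨r, a1, a2, a3⟩ | ⟨r, a1, a2, a3⟩ | ⟨r, a1, a2, a3⟩ <;>
    rcases c3 s j h3 h4 with ⟨q, b1, b2, b3⟩ | ⟨q, b1, b2, b3⟩ | ⟨q, b1, b2, b3⟩ <;> omega
  · intro i j h1 h2 h3 h4
    rcases c3 s i h1 h2 with ⟨r, a1, a2, a3⟩ | ⟨r, a1, a2, a3⟩ | ⟨r, a1, a2, a3⟩ <;>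
    rcases c3 s j h3 h4 with ⟨q, b1, b2, b3⟩ | ⟨q, b1, b2, b3⟩ | ⟨q, b1, b2, b3⟩ <;> omega
  · right
    refine ⟨by omega, fun i h1 h2 => ?_⟩
    rcases c3 s i h1 h2 with ⟨r, a1, a2, a3⟩ | ⟨r, a1, a2, a3⟩ | ⟨r, a1, a2, a3⟩ <;> omega

/-! ### `n = 18 s + 15` -/

def β15 (s i : ℕ) : ℕ :=
  if i % 3 = 1 then 4 * s + 3 - (i - 1) / 3
  else if i % 3 = 2 then 8 * s + 6 - (i - 1) / 3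
  else 6 * s + 3 - 2 * ((i - 1) / 3)

theorem c15 (s i : ℕ) (h1 : 1 ≤ i) (h2 : i ≤ 3 * s + 2) :
    (∃ r, r < s + 1 ∧ i = 3 * r + 1 ∧ β15 s i + r = 4 * s + 3) ∨
    (∃ r, r < s + 1 ∧ i = 3 * r + 2 ∧ β15 s i + r = 8 * s + 6) ∨
    (∃ r, r < s ∧ i = 3 * r + 3 ∧ β15 s i + 2 * r = 6 * s + 3) := by
  unfold β15
  split_ifs with b c
  · exact (Or.inl ⟨(i - 1) / 3, by omega, by omega, by omega⟩)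
  · exact (Or.inr (Or.inl ⟨(i - 1) / 3, by omega, by omega, by omega⟩))
  · exact (Or.inr (Or.inr ⟨(i - 1) / 3, by omega, by omega, by omega⟩))

theorem fam15 (s : ℕ) : DF (18 * s + 15) (3 * s + 2) (β15 s) := by
  apply DF_of
  · omega
  · intro i h1 h2
    rcases c15 s i h1 h2 with ⟨r, a1, a2, a3⟩ | ⟨r, a1, a2, a3⟩ | ⟨r, a1, a2, a3⟩ <;> omega
  · intro i j h1 h2 h3 h4
    rcases c15 s i h1 h2 with ⟨r, a1, a2, a3⟩ | ⟨r, a1, a2, a3⟩ | ⟨r, a1, a2, a3⟩ <;>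
    rcases c15 s j h3 h4 with ⟨q, b1, b2, b3⟩ | ⟨q, b1, b2, b3⟩ | ⟨q, b1, b2, b3⟩ <;> omega
  · intro i j h1 h2 h3 h4
    rcases c15 s i h1 h2 with ⟨r, a1, a2, a3⟩ | ⟨r, a1, a2, a3⟩ | ⟨r, a1, a2, a3⟩ <;>
    rcases c15 s j h3 h4 with ⟨q, b1, b2, b3⟩ | ⟨q, b1, b2, b3⟩ | ⟨q, b1, b2, b3⟩ <;> omega
  · intro i j h1 h2 h3 h4
    rcases c15 s i h1 h2 with ⟨r, a1, a2, a3⟩ | ⟨r, a1, a2, a3⟩ | ⟨r, a1, a2, a3⟩ <;>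
    rcases c15 s j h3 h4 with ⟨q, b1, b2, b3⟩ | ⟨q, b1, b2, b3⟩ | ⟨q, b1, b2, b3⟩ <;> omega
  · intro i j h1 h2 h3 h4
    rcases c15 s j h3 h4 with ⟨q, b1, b2, b3⟩ | ⟨q, b1, b2, b3⟩ | ⟨q, b1, b2, b3⟩ <;> omega
  · intro i j h1 h2 h3 h4
    rcases c15 s i h1 h2 with ⟨r, a1, a2, a3⟩ | ⟨r, a1, a2, a3⟩ | ⟨r, a1, a2, a3⟩ <;>
    rcases c15 s j h3 h4 with ⟨q, b1, b2, b3⟩ | ⟨q, b1, b2, b3⟩ | ⟨q, b1, b2, b3⟩ <;> omega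
  · intro i j h1 h2 h3 h4
    rcases c15 s i h1 h2 with ⟨r, a1, a2, a3⟩ | ⟨r, a1, a2, a3⟩ | ⟨r, a1, a2, a3⟩ <;>
    rcases c15 s j h3 h4 with ⟨q, b1, b2, b3⟩ | ⟨q, b1, b2, b3⟩ | ⟨q, b1, b2, b3⟩ <;> omega
  · right
    refine ⟨by omega, fun i h1 h2 => ?_⟩
    rcases c15 s i h1 h2 with ⟨r, a1, a2, a3⟩ | ⟨r, a1, a2, a3⟩ | ⟨r, a1, a2, a3⟩ <;> omega

/-! ### `n = 18 s + 9` -/

def β9 (s i : ℕ) : ℕ :=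
  if i = 2 then 8 * s + 3
  else if i = 3 then 8 * s + 1
  else if i = 5 then 8 * s + 2
  else if i = 3 * s - 1 then 3 * s + 2
  else if i = 3 * s then 7 * s + 3
  else if i % 3 = 1 then 4 * s + 3 - (i - 1) / 3
  else if i % 3 = 2 then 8 * s + 2 - (i - 1) / 3
  else 6 * s + 1 - 2 * ((i - 1) / 3)

theorem c9 (s i : ℕ) (hs : 4 ≤ s) (h1 : 1 ≤ i) (h2 : i ≤ 3 * s + 1) :
    ((i = 2 ∧ β9 s i = 8 * s + 3) ∨ (i = 3 ∧ β9 s i = 8 * s + 1) ∨ (i = 5 ∧ β9 s i = 8 * s + 2) ∨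
    (i + 1 = 3 * s ∧ β9 s i = 3 * s + 2) ∨ (i = 3 * s ∧ β9 s i = 7 * s + 3)) ∨
    (∃ r, r < s + 1 ∧ i = 3 * r + 1 ∧ β9 s i + r = 4 * s + 3) ∨
    (∃ r, 2 ≤ r ∧ r + 1 < s ∧ i = 3 * r + 2 ∧ β9 s i + r = 8 * s + 2) ∨
    (∃ r, 1 ≤ r ∧ r + 1 < s ∧ i = 3 * r + 3 ∧ β9 s i + 2 * r = 6 * s + 1) := by
  unfold β9
  split_ifs with a1 a2 a3 a4 a5 b c
  · exact Or.inl (by omega)
  · exact Or.inl (by omega)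
  · exact Or.inl (by omega)
  · exact Or.inl (by omega)
  · exact Or.inl (by omega)
  · exact Or.inr (Or.inl ⟨(i - 1) / 3, by omega, by omega, by omega⟩)
  · exact Or.inr (Or.inr (Or.inl ⟨(i - 1) / 3, by omega, by omega, by omega, by omega⟩))
  · exact Or.inr (Or.inr (Or.inr ⟨(i - 1) / 3, by omega, by omega, by omega, by omega⟩))

theorem fam9 (s : ℕ) (hs : 4 ≤ s) : DF (18 * s + 9) (3 * s + 1) (β9 s) := by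
  apply DF_of
  · omega
  · intro i h1 h2
    rcases c9 s i hs h1 h2 with (⟨a1, a2⟩ | ⟨a1, a2⟩ | ⟨a1, a2⟩ | ⟨a1, a2⟩ | ⟨a1, a2⟩) |
      ⟨r, a1, a2, a3⟩ | ⟨r, a0, a1, a2, a3⟩ | ⟨r, a0, a1, a2, a3⟩ <;> omega
  · intro i j h1 h2 h3 h4
    rcases c9 s i hs h1 h2 with (⟨a1, a2⟩ | ⟨a1, a2⟩ | ⟨a1, a2⟩ | ⟨a1, a2⟩ | ⟨a1, a2⟩) |
      ⟨r, a1, a2, a3⟩ | ⟨r, a0, a1, a2, a3⟩ | ⟨r, a0, a1, a2, a3⟩ <;>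
    rcases c9 s j hs h3 h4 with (⟨b1, b2⟩ | ⟨b1, b2⟩ | ⟨b1, b2⟩ | ⟨b1, b2⟩ | ⟨b1, b2⟩) |
      ⟨q, b1, b2, b3⟩ | ⟨q, b0, b1, b2, b3⟩ | ⟨q, b0, b1, b2, b3⟩ <;> omega
  · intro i j h1 h2 h3 h4
    rcases c9 s i hs h1 h2 with (⟨a1, a2⟩ | ⟨a1, a2⟩ | ⟨a1, a2⟩ | ⟨a1, a2⟩ | ⟨a1, a2⟩) |
      ⟨r, a1, a2, a3⟩ | ⟨r, a0, a1, a2, a3⟩ | ⟨r, a0, a1, a2, a3⟩ <;>
    rcases c9 s j hs h3 h4 with (⟨b1, b2⟩ | ⟨b1, b2⟩ | ⟨b1, b2⟩ | ⟨b1, b2⟩ | ⟨b1, b2⟩) |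
      ⟨q, b1, b2, b3⟩ | ⟨q, b0, b1, b2, b3⟩ | ⟨q, b0, b1, b2, b3⟩ <;> omega
  · intro i j h1 h2 h3 h4
    rcases c9 s i hs h1 h2 with (⟨a1, a2⟩ | ⟨a1, a2⟩ | ⟨a1, a2⟩ | ⟨a1, a2⟩ | ⟨a1, a2⟩) |
      ⟨r, a1, a2, a3⟩ | ⟨r, a0, a1, a2, a3⟩ | ⟨r, a0, a1, a2, a3⟩ <;>
    rcases c9 s j hs h3 h4 with (⟨b1, b2⟩ | ⟨b1, b2⟩ | ⟨b1, b2⟩ | ⟨b1, b2⟩ | ⟨b1, b2⟩) |
      ⟨q, b1, b2, b3⟩ | ⟨q, b0, b1, b2, b3⟩ | ⟨q, b0, b1, b2, b3⟩ <;> omega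
  · intro i j h1 h2 h3 h4
    rcases c9 s j hs h3 h4 with (⟨b1, b2⟩ | ⟨b1, b2⟩ | ⟨b1, b2⟩ | ⟨b1, b2⟩ | ⟨b1, b2⟩) |
      ⟨q, b1, b2, b3⟩ | ⟨q, b0, b1, b2, b3⟩ | ⟨q, b0, b1, b2, b3⟩ <;> omega
  · intro i j h1 h2 h3 h4
    rcases c9 s i hs h1 h2 with (⟨a1, a2⟩ | ⟨a1, a2⟩ | ⟨a1, a2⟩ | ⟨a1, a2⟩ | ⟨a1, a2⟩) |
      ⟨r, a1, a2, a3⟩ | ⟨r, a0, a1, a2, a3⟩ | ⟨r, a0, a1, a2, a3⟩ <;>
    rcases c9 s j hs h3 h4 with (⟨b1, b2⟩ | ⟨b1, b2⟩ | ⟨b1, b2⟩ | ⟨b1, b2⟩ | ⟨b1, b2⟩) |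
      ⟨q, b1, b2, b3⟩ | ⟨q, b0, b1, b2, b3⟩ | ⟨q, b0, b1, b2, b3⟩ <;> omega
  · intro i j h1 h2 h3 h4
    rcases c9 s i hs h1 h2 with (⟨a1, a2⟩ | ⟨a1, a2⟩ | ⟨a1, a2⟩ | ⟨a1, a2⟩ | ⟨a1, a2⟩) |
      ⟨r, a1, a2, a3⟩ | ⟨r, a0, a1, a2, a3⟩ | ⟨r, a0, a1, a2, a3⟩ <;>
    rcases c9 s j hs h3 h4 with (⟨b1, b2⟩ | ⟨b1, b2⟩ | ⟨b1, b2⟩ | ⟨b1, b2⟩ | ⟨b1, b2⟩) |
      ⟨q, b1, b2, b3⟩ | ⟨q, b0, b1, b2, b3⟩ | ⟨q, b0, b1, b2, b3⟩ <;> omega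
  · right
    refine ⟨by omega, fun i h1 h2 => ?_⟩
    rcases c9 s i hs h1 h2 with (⟨a1, a2⟩ | ⟨a1, a2⟩ | ⟨a1, a2⟩ | ⟨a1, a2⟩ | ⟨a1, a2⟩) |
      ⟨r, a1, a2, a3⟩ | ⟨r, a0, a1, a2, a3⟩ | ⟨r, a0, a1, a2, a3⟩ <;> omega

/-- Difference triples for all orders `n ≡ 1, 3 (mod 6)`, `n ≥ 72`. -/
theorem exists_DF (n : ℕ) (h72 : 72 ≤ n) (hn : n % 6 = 1 ∨ n % 6 = 3) :
    ∃ k β, DF n k β ∧ n ≤ 6 * k + 3 := by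
  have h18 : n % 18 = 1 ∨ n % 18 = 7 ∨ n % 18 = 13 ∨ n % 18 = 3 ∨ n % 18 = 9 ∨ n % 18 = 15 := by
    omega
  rcases h18 with h | h | h | h | h | h
  · refine ⟨3 * (n / 18), β1 (n / 18), ?_, by omega⟩
    have := fam1 (n / 18) (by omega)
    rwa [show 18 * (n / 18) + 1 = n by omega] at this
  · refine ⟨3 * (n / 18) + 1, β7 (n / 18), ?_, by omega⟩
    have := fam7 (n / 18) (by omega)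
    rwa [show 18 * (n / 18) + 7 = n by omega] at this
  · refine ⟨3 * (n / 18) + 2, β13 (n / 18), ?_, by omega⟩
    have := fam13 (n / 18)
    rwa [show 18 * (n / 18) + 13 = n by omega] at this
  · refine ⟨3 * (n / 18), β3 (n / 18), ?_, by omega⟩
    have := fam3 (n / 18)
    rwa [show 18 * (n / 18) + 3 = n by omega] at this
  · refine ⟨3 * (n / 18) + 1, β9 (n / 18), ?_, by omega⟩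
    have := fam9 (n / 18) (by omega)
    rwa [show 18 * (n / 18) + 9 = n by omega] at this
  · refine ⟨3 * (n / 18) + 2, β15 (n / 18), ?_, by omega⟩
    have := fam15 (n / 18)
    rwa [show 18 * (n / 18) + 15 = n by omega] at this

theorem sq_le_two_pow (k : ℕ) (hk : 4 ≤ k) : k * k ≤ 2 ^ k := by
  induction k, hk using Nat.le_induction with
  | base => norm_num
  | succ k hk ih =>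
    rw [pow_succ]
    nlinarith

end Pool.Agent.T2H46.CycPelt
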