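import Pool.Agent.T2H46.PoonenMod

/-!
# Subgroup lattices of finite groups: the strict form of the union-closed sets conjecture
-/

set_option autoImplicit false

namespace Pool.Agent.T2H46.PoonenGrp

open Pool.Agent.R636.FL

universe u

/-- Every nonabelian simple homomorphic image is generated by two elements of prime power order. -/
def TopGenerated (G : Type u) [Group G] : Prop :=
  ∀ (S : Type u) [Group S] (f : G →* S), Function.Surjective f → IsSimpleGroup S →
    (∃ a b : S, a * b ≠ b * a) →
    ∃ a b : S, IsPrimePow (orderOf a) ∧ IsPrimePow (orderOf b) ∧ Subgroup.closure {a, b} = ⊤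

theorem TopGenerated.quotient {G : Type u} [Group G] (h : TopGenerated G) (J : Subgroup G)
    [J.Normal] : TopGenerated (G ⧸ J) := by
  intro S _ f hf hS hab
  exact h S (f.comp (QuotientGroup.mk' J)) (hf.comp (QuotientGroup.mk'_surjective J)) hS hab

/-- the two-element criterion -/
theorem two_crit {L : Type*} [Lattice L] [Finite L] {N J K : L} (hJN : ¬ J ≤ N) (hKN : ¬ K ≤ N)
    (hrec : ∀ U, J ≤ U → K ≤ U → (J ⊔ K) ⊔ (U ⊓ N) = U)
    (hV : ∃ V : L, ¬ V ≤ N ∧ ¬ J ≤ V ∧ ¬ K ≤ V) :
    2 * Nat.card {U : L // J ≤ U} < Nat.card L ∨ 2 * Nat.card {U : L // K ≤ U} < Nat.card L := by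
  classical
  have := Fintype.ofFinite L
  obtain ⟨V, hV1, hV2, hV3⟩ := hV
  have h1 : (Finset.univ.filter fun U : L => J ≤ U ∧ K ≤ U).card <
      (Finset.univ.filter fun U : L => ¬ J ≤ U ∧ ¬ K ≤ U).card := by
    have h0 : (Finset.univ.filter fun U : L => J ≤ U ∧ K ≤ U).card ≤
        ((Finset.univ.filter fun U : L => ¬ J ≤ U ∧ ¬ K ≤ U).erase V).card := by
      refine Finset.card_le_card_of_injOn (fun U => U ⊓ N) ?_ ?_
      · intro U hU
        simp only [Finset.coe_filter, Finset.mem_univ, true_and, Set.mem_ofPred_eq] at hU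
        rw [Finset.mem_coe, Finset.mem_erase]
        refine ⟨fun h3 => hV1 (by rw [← h3]; exact inf_le_right), ?_⟩
        simp only [Finset.mem_filter, Finset.mem_univ, true_and]
        exact ⟨fun h3 => hJN (h3.trans inf_le_right), fun h3 => hKN (h3.trans inf_le_right)⟩
      · intro U hU W hW h3
        simp only [Finset.coe_filter, Finset.mem_univ, true_and, Set.mem_ofPred_eq] at hU hW
        simp only at h3
        rw [← hrec U hU.1 hU.2, h3, hrec W hW.1 hW.2]
    refine lt_of_le_of_lt h0 (Finset.card_erase_lt_of_mem ?_)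
    simp only [Finset.mem_filter, Finset.mem_univ, true_and]
    exact ⟨hV2, hV3⟩
  have e1 : (Finset.univ.filter fun U : L => J ≤ U).card =
      (Finset.univ.filter fun U : L => J ≤ U ∧ K ≤ U).card +
      (Finset.univ.filter fun U : L => J ≤ U ∧ ¬ K ≤ U).card := by
    rw [← Finset.card_filter_add_card_filter_not (s := Finset.univ.filter fun U : L => J ≤ U)
      (fun U : L => K ≤ U), Finset.filter_filter, Finset.filter_filter]
  have e2 : (Finset.univ.filter fun U : L => K ≤ U).card =
      (Finset.univ.filter fun U : L => J ≤ U ∧ K ≤ U).card +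
      (Finset.univ.filter fun U : L => ¬ J ≤ U ∧ K ≤ U).card := by
    rw [← Finset.card_filter_add_card_filter_not (s := Finset.univ.filter fun U : L => K ≤ U)
      (fun U : L => J ≤ U), Finset.filter_filter, Finset.filter_filter]
    congr 2 <;> ext U <;> simp only [Finset.mem_filter] <;> tauto
  have e3 : (Finset.univ.filter fun U : L => ¬ J ≤ U).card =
      (Finset.univ.filter fun U : L => ¬ J ≤ U ∧ K ≤ U).card +
      (Finset.univ.filter fun U : L => ¬ J ≤ U ∧ ¬ K ≤ U).card := by
    rw [← Finset.card_filter_add_card_filter_not (s := Finset.univ.filter fun U : L => ¬ J ≤ U)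
      (fun U : L => K ≤ U), Finset.filter_filter, Finset.filter_filter]
  have e4 := Finset.card_filter_add_card_filter_not (s := (Finset.univ : Finset L))
    (fun U : L => J ≤ U)
  rw [Nat.card_eq_fintype_card, Nat.card_eq_fintype_card, Fintype.card_subtype,
    Nat.card_eq_fintype_card, Fintype.card_subtype]
  rw [Finset.card_univ] at e4
  omega

/-- a cyclic subgroup of prime power order is join-irreducible -/
theorem supIrred_zpowers {G : Type*} [Group G] [Finite G] {x : G} (hx : IsPrimePow (orderOf x)) :
    SupIrred (Subgroup.zpowers x) := by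
  obtain ⟨p, k, hp, hk, hpk⟩ := hx
  have hp' : p.Prime := hp.nat_prime
  have key : ∀ A : Subgroup G, A ≤ Subgroup.zpowers x → A ≠ Subgroup.zpowers x →
      A ≤ Subgroup.zpowers (x ^ p) := by
    intro A hA hne y hy
    obtain ⟨i, hi⟩ := Subgroup.mem_zpowers_iff.1 (hA hy)
    by_cases hpi : (p : ℤ) ∣ i
    · obtain ⟨j, rfl⟩ := hpi
      rw [← hi, Subgroup.mem_zpowers_iff]
      exact ⟨j, by rw [zpow_mul, zpow_natCast]⟩
    · exfalso
      apply hne
      apply le_antisymm hA
      rw [Subgroup.zpowers_le]
      have hcop : IsCoprime i (orderOf x : ℤ) := by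
        rw [← hpk]
        push_cast
        apply IsCoprime.pow_right
        rw [isCoprime_comm]
        exact (Nat.prime_iff_prime_int.1 hp').coprime_iff_not_dvd.2 hpi
      obtain ⟨a, b, hab⟩ := hcop
      have h1 : x = y ^ a := by
        rw [← hi, ← zpow_mul]
        conv_lhs => rw [← zpow_one x, ← hab]
        rw [zpow_add, mul_comm a i, mul_comm b, zpow_mul x (orderOf x : ℤ) b, zpow_natCast,
          pow_orderOf_eq_one, one_zpow, mul_one]
      rw [h1]
      exact A.zpow_mem hy a
  have hnot : ¬ Subgroup.zpowers x ≤ Subgroup.zpowers (x ^ p) := by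
    rw [Subgroup.zpowers_le]
    intro h
    obtain ⟨j, hj⟩ := Subgroup.mem_zpowers_iff.1 h
    have h1 : x ^ ((p : ℤ) * j - 1) = 1 := by
      rw [zpow_sub, zpow_mul, zpow_natCast, hj, zpow_one, mul_inv_cancel]
    have h2 : (orderOf x : ℤ) ∣ (p : ℤ) * j - 1 := orderOf_dvd_iff_zpow_eq_one.2 h1
    have h3 : (p : ℤ) ∣ (orderOf x : ℤ) := by
      rw [← hpk]
      exact_mod_cast dvd_pow_self p hk.ne'
    have h4 : (p : ℤ) ∣ 1 := by
      have h5 := h3.trans h2
      have h6 : (p : ℤ) ∣ (p : ℤ) * j := dvd_mul_right _ _
      have h7 := dvd_sub h6 h5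
      simpa using h7
    have h5 : p ∣ 1 := by exact_mod_cast h4
    exact hp'.one_lt.ne' (Nat.dvd_one.1 h5)
  refine ⟨?_, ?_⟩
  · intro hmin
    have h1 : Subgroup.zpowers x ≤ ⊥ := hmin bot_le
    exact hnot (h1.trans bot_le)
  · intro A B hAB
    by_contra hno
    push Not at hno
    have hA := key A (by rw [← hAB]; exact le_sup_left) hno.1
    have hB := key B (by rw [← hAB]; exact le_sup_right) hno.2
    exact hnot (by rw [← hAB]; exact sup_le hA hB)

/-- a join-irreducible element of the quotient lifts -/
theorem lift_irred {G S : Type*} [Group G] [Finite G] [Group S] [Finite S] (f : G →* S)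
    (hf : Function.Surjective f) {A : Subgroup S} (hA : SupIrred A) :
    ∃ J : Subgroup G, SupIrred J ∧ J.map f = A := by
  classical
  -- the proper subgroups of `A` generate a proper subgroup
  have hlow : ∃ B : Subgroup S, B < A ∧ ∀ C : Subgroup S, C < A → C ≤ B := by
    have hfin : (Set.Iio A).Finite := Set.toFinite _
    have key : ∀ F : Finset (Subgroup S), (∀ C ∈ F, C < A) → F.sup id < A := by
      intro F
      induction F using Finset.induction_on with
      | empty =>
        intro _
        rw [Finset.sup_empty]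
        exact bot_lt_iff_ne_bot.2 (fun h => hA.1 (by rw [h]; exact isMin_bot))
      | insert C F hC ih =>
        intro hF
        rw [Finset.sup_insert]
        have h1 : C < A := hF C (Finset.mem_insert_self _ _)
        have h2 : F.sup id < A := ih (fun D hD => hF D (Finset.mem_insert_of_mem hD))
        refine lt_of_le_of_ne (sup_le h1.le h2.le) (fun h3 => ?_)
        rcases hA.2 h3 with h4 | h4
        · exact h1.ne h4
        · exact h2.ne h4
    refine ⟨hfin.toFinset.sup id, key _ (fun C hC => by simpa using hC), fun C hC => ?_⟩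
    exact Finset.le_sup (f := id) (by simpa using hC)
  obtain ⟨B, hBA, hB⟩ := hlow
  obtain ⟨J, hJ⟩ := (Set.toFinite {U : Subgroup G | U ≤ A.comap f ∧ ¬ U ≤ B.comap f}).exists_minimal
    ⟨A.comap f, le_rfl, fun h => hBA.not_ge (by
      rw [← Subgroup.map_le_iff_le_comap, Subgroup.map_comap_eq_self_of_surjective hf] at h
      exact h)⟩
  refine ⟨J, ⟨?_, ?_⟩, ?_⟩
  · intro hmin
    have h1 : J = ⊥ := le_bot_iff.1 (hmin bot_le)
    exact hJ.1.2 (by rw [h1]; exact bot_le)
  · intro b c hbc
    by_contra hno
    push Not at hno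
    have hb : b ≤ B.comap f := by
      by_contra h
      exact hno.1 (le_antisymm (by rw [← hbc]; exact le_sup_left)
        (hJ.2 ⟨(show b ≤ J by rw [← hbc]; exact le_sup_left).trans hJ.1.1, h⟩
          (by rw [← hbc]; exact le_sup_left)))
    have hc : c ≤ B.comap f := by
      by_contra h
      exact hno.2 (le_antisymm (by rw [← hbc]; exact le_sup_right)
        (hJ.2 ⟨(show c ≤ J by rw [← hbc]; exact le_sup_right).trans hJ.1.1, h⟩
          (by rw [← hbc]; exact le_sup_right)))
    exact hJ.1.2 (by rw [← hbc]; exact sup_le hb hc)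
  · have h1 : J.map f ≤ A := Subgroup.map_le_iff_le_comap.2 hJ.1.1
    rcases lt_or_eq_of_le h1 with h2 | h2
    · exact absurd (Subgroup.map_le_iff_le_comap.1 (hB _ h2)) hJ.1.2
    · exact h2

/-- the modular law for a normal subgroup -/
theorem normal_modular {G : Type*} [Group G] (N : Subgroup G) [N.Normal] {x z : Subgroup G}
    (h : x ≤ z) : (x ⊔ N) ⊓ z = x ⊔ (N ⊓ z) := by
  apply le_antisymm
  · intro g hg
    obtain ⟨h1, h2⟩ := hg
    have h3 : g ∈ ((x ⊔ N : Subgroup G) : Set G) := h1
    rw [Subgroup.mul_normal x N, Set.mem_mul] at h3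
    obtain ⟨a, ha, b, hb, rfl⟩ := h3
    have hb' : b ∈ z := by
      have := z.mul_mem (z.inv_mem (h ha)) h2
      rwa [← mul_assoc, inv_mul_cancel, one_mul] at this
    exact Subgroup.mul_mem_sup ha ⟨hb, hb'⟩
  · exact le_inf (sup_le le_sup_left (inf_le_left.trans le_sup_right))
      (sup_le h inf_le_right)

theorem good_all (n : ℕ) : ∀ (G : Type u) [Group G] [Finite G], Nat.card G ≤ n →
    TopGenerated G → Good (Subgroup G) := by
  induction n with
  | zero =>
    intro G _ _ hn _
    have := Nat.card_pos (α := G)
    omega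
  | succ n ih =>
    intro G _ _ hn hG
    classical
    rcases subsingleton_or_nontrivial G with hs | hs
    · exact good_of_subsingleton
    -- a maximal normal subgroup
    obtain ⟨N, hN⟩ := (Set.toFinite {U : Subgroup G | U.Normal ∧ U ≠ ⊤}).exists_maximal
      ⟨⊥, inferInstance, bot_ne_top⟩
    have hNn : N.Normal := hN.1.1
    have hNt : N ≠ ⊤ := hN.1.2
    have hsimple : IsSimpleGroup (G ⧸ N) := by
      have : Nontrivial (G ⧸ N) := QuotientGroup.nontrivial_iff.2 hNt
      refine ⟨fun H hH => ?_⟩
      by_cases h1 : H.comap (QuotientGroup.mk' N) = ⊤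
      · right
        rw [eq_top_iff] at h1 ⊢
        intro s _
        obtain ⟨g, rfl⟩ := QuotientGroup.mk'_surjective N s
        exact h1 (Subgroup.mem_top g)
      · left
        have h2 : N ≤ H.comap (QuotientGroup.mk' N) := by
          intro g hg
          rw [Subgroup.mem_comap]
          have : QuotientGroup.mk' N g = 1 := (QuotientGroup.eq_one_iff g).2 hg
          rw [this]
          exact H.one_mem
        have h3 : H.comap (QuotientGroup.mk' N) ≤ N := hN.2 ⟨inferInstance, h1⟩ h2
        rw [eq_bot_iff]
        intro s hs'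
        obtain ⟨g, rfl⟩ := QuotientGroup.mk'_surjective N s
        exact Subgroup.mem_bot.2 ((QuotientGroup.eq_one_iff g).2 (h3 hs'))
    by_cases hcomm : ∃ a b : G ⧸ N, a * b ≠ b * a
    · -- the simple quotient is not commutative
      obtain ⟨a, b, ha, hb, hab⟩ := hG (G ⧸ N) (QuotientGroup.mk' N)
        (QuotientGroup.mk'_surjective N) hsimple hcomm
      have hfin : Finite (G ⧸ N) := inferInstance
      obtain ⟨J, hJ, hJa⟩ := lift_irred (QuotientGroup.mk' N) (QuotientGroup.mk'_surjective N)
        (supIrred_zpowers ha)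
      obtain ⟨K, hK, hKb⟩ := lift_irred (QuotientGroup.mk' N) (QuotientGroup.mk'_surjective N)
        (supIrred_zpowers hb)
      have hnot : ∀ (J : Subgroup G) (a : G ⧸ N), IsPrimePow (orderOf a) →
          J.map (QuotientGroup.mk' N) = Subgroup.zpowers a → ¬ J ≤ N := by
        intro J a ha hJa hle
        have h1 : J.map (QuotientGroup.mk' N) ≤ ⊥ := by
          rw [Subgroup.map_le_iff_le_comap, MonoidHom.comap_bot, QuotientGroup.ker_mk']
          exact hle
        rw [hJa, Subgroup.zpowers_le, Subgroup.mem_bot] at h1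
        rw [h1, orderOf_one] at ha
        exact not_isPrimePow_one ha
      have hJN := hnot J a ha hJa
      have hKN := hnot K b hb hKb
      have htop : (J ⊔ K) ⊔ N = ⊤ := by
        have h1 : ((J ⊔ K) ⊔ N).map (QuotientGroup.mk' N) = ⊤ := by
          rw [eq_top_iff, ← hab, Subgroup.closure_le]
          rintro s (rfl | rfl)
          · have h2 : s ∈ J.map (QuotientGroup.mk' N) := by
              rw [hJa]; exact Subgroup.mem_zpowers s
            exact Subgroup.map_mono (le_sup_left.trans le_sup_left) h2
          · have h2 : s ∈ K.map (QuotientGroup.mk' N) := by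
              rw [hKb]; exact Subgroup.mem_zpowers s
            exact Subgroup.map_mono (le_sup_right.trans le_sup_left) h2
        have h2 : N ≤ (J ⊔ K) ⊔ N := le_sup_right
        have h3 := Subgroup.comap_map_eq_self (f := QuotientGroup.mk' N) (H := (J ⊔ K) ⊔ N)
          (by rw [QuotientGroup.ker_mk']; exact h2)
        rw [← h3, h1, Subgroup.comap_top]
      have hrec : ∀ U, J ≤ U → K ≤ U → (J ⊔ K) ⊔ (U ⊓ N) = U := by
        intro U h1 h2
        rw [inf_comm, ← normal_modular N (sup_le h1 h2), htop, top_inf_eq]
      have hV : ∃ V : Subgroup G, ¬ V ≤ N ∧ ¬ J ≤ V ∧ ¬ K ≤ V := by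
        by_contra hno
        push Not at hno
        obtain ⟨x, hxJ, hxN⟩ := SetLike.not_le_iff_exists.1 hJN
        obtain ⟨y, hyK, hyN⟩ := SetLike.not_le_iff_exists.1 hKN
        have hcen : ∀ z : G, z ∉ N → ∃ s : G ⧸ N, s * (z : G ⧸ N) ≠ (z : G ⧸ N) * s := by
          intro z hz
          by_contra h1
          push Not at h1
          have h2 : (z : G ⧸ N) ∈ Subgroup.center (G ⧸ N) := Subgroup.mem_center_iff.2 h1
          rcases hsimple.eq_bot_or_eq_top_of_normal (Subgroup.center (G ⧸ N)) inferInstance with
            h3 | h3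
          · rw [h3, Subgroup.mem_bot] at h2
            exact hz ((QuotientGroup.eq_one_iff z).1 h2)
          · obtain ⟨s, t, hst⟩ := hcomm
            have h4 : t ∈ Subgroup.center (G ⧸ N) := by rw [h3]; exact Subgroup.mem_top t
            exact hst (Subgroup.mem_center_iff.1 h4 s)
        have hcov : ∀ s : G ⧸ N, s * (x : G ⧸ N) = (x : G ⧸ N) * s ∨
            s * (y : G ⧸ N) = (y : G ⧸ N) * s := by
          intro s
          obtain ⟨g, rfl⟩ := QuotientGroup.mk'_surjective N s
          by_cases hg : g ∈ N
          · left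
            have : (QuotientGroup.mk' N) g = 1 := (QuotientGroup.eq_one_iff g).2 hg
            rw [this, one_mul, mul_one]
          · have h1 : ¬ Subgroup.zpowers g ≤ N := by
              rw [Subgroup.zpowers_le]; exact hg
            have hcommute : ∀ z ∈ Subgroup.zpowers g, (QuotientGroup.mk' N) g * (z : G ⧸ N) =
                (z : G ⧸ N) * (QuotientGroup.mk' N) g := by
              intro z hz
              obtain ⟨i, rfl⟩ := Subgroup.mem_zpowers_iff.1 hz
              change ((g : G ⧸ N)) * ((g ^ i : G) : G ⧸ N) = ((g ^ i : G) : G ⧸ N) * (g : G ⧸ N)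
              rw [← QuotientGroup.mk_mul, ← QuotientGroup.mk_mul, (Commute.self_zpow g i).eq]
            by_cases hJV : J ≤ Subgroup.zpowers g
            · exact Or.inl (hcommute x (hJV hxJ))
            · exact Or.inr (hcommute y (hno _ h1 hJV hyK))
        obtain ⟨s, hs1⟩ := hcen x hxN
        obtain ⟨t, ht1⟩ := hcen y hyN
        have hs2 := (hcov s).resolve_left hs1
        have ht2 := (hcov t).resolve_right ht1
        rcases hcov (s * t) with h1 | h1
        · apply hs1
          have h2 : s * (x : G ⧸ N) * t = (x : G ⧸ N) * s * t := by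
            rw [mul_assoc, ← ht2, ← mul_assoc, h1, mul_assoc]
          exact mul_right_cancel h2
        · apply ht1
          have h2 : s * (t * (y : G ⧸ N)) = s * ((y : G ⧸ N) * t) := by
            rw [← mul_assoc, h1, ← mul_assoc, ← hs2, mul_assoc]
          exact mul_left_cancel h2
      rcases two_crit hJN hKN hrec hV with h1 | h1
      · exact Or.inl ⟨J, hJ, h1⟩
      · exact Or.inl ⟨K, hK, h1⟩
    · -- the simple quotient is commutative
      push Not at hcomm
      obtain ⟨J, hJN, hJ⟩ := exists_minimal_not_le (fun U : Subgroup G => ¬ U ≤ N)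
        ⟨⊤, fun h1 => hNt (top_le_iff.1 h1)⟩ (fun h1 => h1 bot_le)
        (fun A B hA hB => by
          push Not at hA hB ⊢
          exact sup_le hA hB)
      have htop : J ⊔ N = ⊤ := by
        have hnor : (J ⊔ N).Normal := by
          constructor
          intro g hg h
          have h1 : (h * g * h⁻¹ * g⁻¹) ∈ N := by
            rw [← QuotientGroup.eq_one_iff]
            have h2 := hcomm (h : G ⧸ N) (g : G ⧸ N)
            change ((h : G ⧸ N) * (g : G ⧸ N) * (h : G ⧸ N)⁻¹ * (g : G ⧸ N)⁻¹) = 1
            rw [h2, mul_assoc (g : G ⧸ N), mul_inv_cancel, mul_one, mul_inv_cancel]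
          have h3 : h * g * h⁻¹ = (h * g * h⁻¹ * g⁻¹) * g := by group
          rw [h3]
          exact (J ⊔ N).mul_mem (le_sup_right (a := J) h1) hg
        by_contra hne
        have h1 : J ⊔ N ≤ N := hN.2 ⟨hnor, hne⟩ le_sup_right
        exact hJN (le_sup_left.trans h1)
      have hrec : ∀ U, J ≤ U → J ⊔ (U ⊓ N) = U := by
        intro U h1
        rw [inf_comm, ← normal_modular N h1, htop, top_inf_eq]
      rcases one_crit hJN hrec with h1 | h1
      · -- split: `J` is normal
        have hJnor : J.Normal := by
          constructor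
          intro x hx g
          -- the conjugate of `J` by `g`
          have h2 : ¬ J.map (MulAut.conj g).toMonoidHom ≤ N := by
            intro h3
            apply hJN
            intro y hy
            have h4 : g * y * g⁻¹ ∈ N := h3 (Subgroup.mem_map.2 ⟨y, hy, by simp⟩)
            have h5 := hNn.conj_mem _ h4 g⁻¹
            simpa [mul_assoc] using h5
          have h3 : J ≤ J.map (MulAut.conj g).toMonoidHom := by
            rcases h1 (J.map (MulAut.conj g).toMonoidHom) with h4 | h4
            · exact h4
            · exact absurd h4.1 h2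
          have h4 : Nat.card (J.map (MulAut.conj g).toMonoidHom) = Nat.card J :=
            (Nat.card_congr (J.equivMapOfInjective _ (MulAut.conj g).injective).toEquiv).symm
          have h5 : J = J.map (MulAut.conj g).toMonoidHom :=
            Subgroup.eq_of_le_of_card_ge h3 h4.le
          rw [h5]
          exact Subgroup.mem_map.2 ⟨x, hx, by simp⟩
        have hJbot : J ≠ ⊥ := fun h2 => hJN (by rw [h2]; exact bot_le)
        have hcard : Nat.card (G ⧸ J) ≤ n := by
          have h2 := Subgroup.card_eq_card_quotient_mul_card_subgroup J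
          have h3 : 1 < Nat.card J := by
            rw [Subgroup.one_lt_card_iff_ne_bot]
            exact hJbot
          have h4 : 0 < Nat.card (G ⧸ J) := Nat.card_pos
          nlinarith
        have h2 : Good (Subgroup (G ⧸ J)) := ih (G ⧸ J) hcard (hG.quotient J)
        have h3 : ∀ V, V ≤ N → (J ⊔ V) ⊓ N = V := fun V hV => ((h1 V).resolve_left
          (fun h4 => hJN (h4.trans hV))).2
        have e1 : {H : Subgroup G // J ≤ H} ≃o Set.Iic N :=
          { toFun := fun U => (⟨(U.1 : Subgroup G) ⊓ N, Set.mem_Iic.2 inf_le_right⟩ : Set.Iic N)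
            invFun := fun V => (⟨J ⊔ V.1, le_sup_left⟩ : {H : Subgroup G // J ≤ H})
            left_inv := fun U => Subtype.ext (hrec U.1 U.2)
            right_inv := fun V => Subtype.ext (h3 V.1 V.2)
            map_rel_iff' := by
              rintro ⟨U, hU⟩ ⟨W, hW⟩
              change U ⊓ N ≤ W ⊓ N ↔ U ≤ W
              constructor
              · intro h4
                rw [← hrec U hU, ← hrec W hW]
                exact sup_le_sup_left h4 J
              · intro h4
                exact inf_le_inf_right N h4 }
        have h4 : Good (Set.Iic N) := by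
          rcases h2 with ⟨A, hA, hc⟩ | ⟨⟨k, hk1, hk2⟩, hw⟩
          · exact (Good.congr ((QuotientGroup.comapMk'OrderIso J).trans e1) (Or.inl ⟨A, hA, hc⟩))
          · exact (Good.congr ((QuotientGroup.comapMk'OrderIso J).trans e1)
              (Or.inr ⟨⟨k, hk1, hk2⟩, hw⟩))
        exact good_of_split hJN hrec h1 h4
      · exact Or.inl ⟨J, hJ, h1⟩

theorem good_group (G : Type u) [Group G] [Finite G] (h : TopGenerated G) : Good (Subgroup G) :=
  good_all _ G le_rfl h

end Pool.Agent.T2H46.PoonenGrp
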