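import Pool.Agent.R636.FFam

/-!
# Lattices with a maximal chain of elements, each of them modular in the interval below the next one
-/

set_option autoImplicit false

namespace Pool.Agent.T2H46.PoonenMod

open Pool.Agent.R636.FL

universe u

/-- one step: a modular coatom -/
theorem good_step {L : Type*} [Lattice L] [OrderBot L] [Finite L] {N T : L} (hT : ∀ x, x ≤ T)
    (hc : N ⋖ T) (hmod : ∀ x z, x ≤ z → (x ⊔ N) ⊓ z = x ⊔ (N ⊓ z))
    (h : Good (Set.Iic N)) : Good L := by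
  obtain ⟨J, hJN, hJ⟩ := exists_minimal_not_le (fun U : L => ¬ U ≤ N)
    ⟨T, fun h1 => absurd (le_antisymm h1 hc.1.le) (by
      intro h2; exact absurd hc.1 (by rw [h2]; exact lt_irrefl _))⟩
    (fun h1 => h1 bot_le)
    (fun A B hA hB => by
      push Not at hA hB ⊢
      exact sup_le hA hB)
  have hJT : J ⊔ N = T := by
    have h1 : N < J ⊔ N := lt_of_le_of_ne le_sup_right (fun h2 => hJN (by rw [h2]; exact le_sup_left))
    rcases lt_or_eq_of_le (hT (J ⊔ N)) with h4 | h4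
    · exact absurd h4 (hc.2 h1)
    · exact h4
  have hrec : ∀ U, J ≤ U → J ⊔ (U ⊓ N) = U := by
    intro U hU
    rw [inf_comm U N, ← hmod J U hU, hJT]
    exact inf_eq_right.2 (hT U)
  rcases one_crit hJN hrec with h1 | h1
  · exact good_of_split hJN hrec h1 h
  · exact Or.inl ⟨J, hJ, h1⟩

/-- the interval below `a`, for `a ≤ b`, is the same in the interval below `b` -/
def iicIso {L : Type*} [Lattice L] {a b : L} (h : a ≤ b) :
    Set.Iic a ≃o Set.Iic (⟨a, h⟩ : Set.Iic b) where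
  toFun x := ⟨⟨x.1, x.2.trans h⟩, x.2⟩
  invFun x := ⟨x.1.1, x.2⟩
  left_inv _ := rfl
  right_inv _ := rfl
  map_rel_iff' := Iff.rfl

theorem good_chain {L : Type*} [Lattice L] [OrderBot L] [Finite L] (k : ℕ) (m : ℕ → L)
    (h0 : m 0 = ⊥) (hcov : ∀ i < k, m i ⋖ m (i + 1))
    (hmod : ∀ i < k, ∀ x z : L, x ≤ z → z ≤ m (i + 1) → (x ⊔ m i) ⊓ z = x ⊔ (m i ⊓ z)) :
    ∀ i ≤ k, Good (Set.Iic (m i)) := by
  intro i
  induction i with
  | zero =>
    intro _
    have : Subsingleton (Set.Iic (m 0)) := by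
      constructor
      rintro ⟨x, hx⟩ ⟨y, hy⟩
      apply Subtype.ext
      rw [h0] at hx hy
      exact (le_bot_iff.1 hx).trans (le_bot_iff.1 hy).symm
    exact good_of_subsingleton
  | succ i ih =>
    intro hi
    have hlt : i < k := hi
    have hle : m i ≤ m (i + 1) := (hcov i hlt).1.le
    have hN : Good (Set.Iic (⟨m i, hle⟩ : Set.Iic (m (i + 1)))) :=
      (ih hlt.le).congr (iicIso hle)
    refine good_step (N := (⟨m i, hle⟩ : Set.Iic (m (i + 1)))) (T := ⟨m (i + 1), le_refl _⟩)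
      (fun x => x.2) ?_ ?_ hN
    · constructor
      · exact (hcov i hlt).1
      · rintro ⟨x, hx⟩ h1 h2
        exact (hcov i hlt).2 (c := x) h1 h2
    · rintro ⟨x, hx⟩ ⟨z, hz⟩ hxz
      apply Subtype.ext
      exact hmod i hlt x z hxz hz

theorem good_of_chain {L : Type*} [Lattice L] [BoundedOrder L] [Finite L] (k : ℕ) (m : ℕ → L)
    (h0 : m 0 = ⊥) (hk : m k = ⊤) (hcov : ∀ i < k, m i ⋖ m (i + 1))
    (hmod : ∀ i < k, ∀ x z : L, x ≤ z → z ≤ m (i + 1) → (x ⊔ m i) ⊓ z = x ⊔ (m i ⊓ z)) :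
    Good L := by
  have h1 := good_chain k m h0 hcov hmod k le_rfl
  have e : Set.Iic (m k) ≃o L :=
    { toFun := fun x => x.1
      invFun := fun x => ⟨x, by rw [hk]; exact le_top⟩
      left_inv := fun x => rfl
      right_inv := fun x => rfl
      map_rel_iff' := Iff.rfl }
  exact h1.congr e

end Pool.Agent.T2H46.PoonenMod
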