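import Pool.Agent.T2H46.PoonenMod

/-!
# Lattices in which no join-irreducible element is superfluous
-/

set_option autoImplicit false

namespace Pool.Agent.T2H46.PoonenSec

open Pool.Agent.R636.FL

/-- finite modular lattices are good -/
theorem good_modular (n : ℕ) : ∀ (L : Type*) [Lattice L] [BoundedOrder L] [IsModularLattice L]
    [Finite L], Nat.card L ≤ n → Good L := by
  induction n with
  | zero =>
    intro L _ _ _ _ hn
    have := Nat.card_pos (α := L)
    omega
  | succ n ih =>
    intro L _ _ _ _ hn
    rcases subsingleton_or_nontrivial L with hs | hs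
    · exact good_of_subsingleton
    obtain ⟨N, hN⟩ := IsCoatomic.exists_coatom (α := L)
    have hcard : Nat.card (Set.Iic N) ≤ n := by
      have h1 : Nat.card (Set.Iic N) < Nat.card L := by
        classical
        have := Fintype.ofFinite L
        rw [Nat.card_eq_fintype_card, Nat.card_eq_fintype_card]
        apply Fintype.card_lt_of_injective_of_notMem _ Subtype.val_injective (b := ⊤)
        rintro ⟨⟨x, hx⟩, hx'⟩
        simp only at hx'
        rw [hx'] at hx
        exact hN.1 (top_le_iff.1 hx)
      omega
    exact PoonenMod.good_step (N := N) (T := ⊤) (fun x => le_top) hN.covBy_top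
      (fun x z h => sup_inf_assoc_of_le N h) (ih (Set.Iic N) hcard)

set_option linter.unusedSectionVars false

variable {L : Type*} [Lattice L] [OrderBot L] [Finite L]

/-- every join-irreducible element below `x` is needed in some representation of `x` -/
def Needed (L : Type*) [Lattice L] : Prop :=
  ∀ j x : L, SupIrred j → j ≤ x → ∃ y, ¬ j ≤ y ∧ j ⊔ y = x

theorem inj_of_eq (hL : Needed L) {j : L} (hj : SupIrred j)
    (hc : Nat.card L ≤ 2 * Nat.card {U : L // j ≤ U}) :
    ∀ z z' : L, ¬ j ≤ z → ¬ j ≤ z' → j ⊔ z = j ⊔ z' → z = z' := by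
  classical
  have := Fintype.ofFinite L
  let f : {z : L // ¬ j ≤ z} → {x : L // j ≤ x} := fun z => ⟨j ⊔ z.1, le_sup_left⟩
  have hf : Function.Surjective f := by
    rintro ⟨x, hx⟩
    obtain ⟨y, hy, hyx⟩ := hL j x hj hx
    exact ⟨⟨y, hy⟩, Subtype.ext hyx⟩
  have hcard : Fintype.card {z : L // ¬ j ≤ z} = Fintype.card {x : L // j ≤ x} := by
    have h1 := Fintype.card_le_of_surjective f hf
    have h2 : Fintype.card {z : L // ¬ j ≤ z} = Fintype.card L - Fintype.card {x : L // j ≤ x} :=
      Fintype.card_subtype_compl (fun x : L => j ≤ x)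
    have h3 : Fintype.card {x : L // j ≤ x} ≤ Fintype.card L :=
      Fintype.card_subtype_le _
    rw [Nat.card_eq_fintype_card, Nat.card_eq_fintype_card] at hc
    omega
  have hb : Function.Bijective f :=
    (Fintype.bijective_iff_surjective_and_card f).2 ⟨hf, hcard⟩
  intro z z' hz hz' h
  have h1 : f ⟨z, hz⟩ = f ⟨z', hz'⟩ := Subtype.ext h
  exact congrArg Subtype.val (hb.1 h1)

theorem indep (hL : Needed L)
    (hinj : ∀ j : L, SupIrred j → ∀ z z' : L, ¬ j ≤ z → ¬ j ≤ z' → j ⊔ z = j ⊔ z' → z = z')
    [DecidableEq L] (n : ℕ) : ∀ (S : Finset L) (a : L), S.card ≤ n → (∀ j ∈ S, SupIrred j) →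
      SupIrred a → a ∉ S → ¬ a ≤ S.sup id := by
  induction n with
  | zero =>
    intro S a hS _ ha _ hle
    rw [Finset.card_eq_zero.1 (Nat.le_zero.1 hS), Finset.sup_empty] at hle
    exact ha.ne_bot (le_bot_iff.1 hle)
  | succ n ih =>
    intro S a hS hirr ha haS hle
    rcases Nat.lt_or_ge S.card (n + 1) with hlt | hge
    · exact ih S a (by omega) hirr ha haS hle
    have hne : S.Nonempty := Finset.card_pos.1 (by omega)
    obtain ⟨b, hb⟩ := hne
    have hbi := hirr b hb
    have hab : a ≠ b := fun h => haS (h ▸ hb)
    by_cases hZ : (S.erase b).Nonempty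
    · obtain ⟨c, hc⟩ := hZ
      have hcS : c ∈ S := Finset.mem_of_mem_erase hc
      have hci := hirr c hcS
      have hcb : c ≠ b := Finset.ne_of_mem_erase hc
      have hac : a ≠ c := fun h => haS (h ▸ hcS)
      set Z := S.erase b with hZdef
      set W := Z.erase c with hWdef
      have hZc : Z.card ≤ n := by rw [hZdef, Finset.card_erase_of_mem hb]; omega
      have hWc : W.card + 1 ≤ n := by
        have : W.card = Z.card - 1 := Finset.card_erase_of_mem hc
        have h1 : 0 < Z.card := Finset.card_pos.2 ⟨c, hc⟩
        omega
      have hZi : ∀ j ∈ Z, SupIrred j := fun j hj => hirr j (Finset.mem_of_mem_erase hj)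
      have hWi : ∀ j ∈ W, SupIrred j := fun j hj => hZi j (Finset.mem_of_mem_erase hj)
      have hSz : S.sup id = b ⊔ Z.sup id := by
        conv_lhs => rw [← Finset.insert_erase hb]
        rw [Finset.sup_insert]
        rfl
      have hZw : Z.sup id = c ⊔ W.sup id := by
        conv_lhs => rw [← Finset.insert_erase hc]
        rw [Finset.sup_insert]
        rfl
      have haz : ¬ a ≤ Z.sup id := ih Z a hZc hZi ha (fun h => haS (Finset.mem_of_mem_erase h))
      have hbz : ¬ b ≤ Z.sup id := ih Z b hZc hZi hbi (Finset.notMem_erase b S)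
      -- `z ⊔ a = z ⊔ b`
      have hbv : b ≤ a ⊔ Z.sup id := by
        by_contra hbv
        have h1 := hinj b hbi (a ⊔ Z.sup id) (Z.sup id) hbv hbz (by
          apply le_antisymm
          · refine sup_le le_sup_left (sup_le ?_ le_sup_right)
            rw [← hSz]; exact hle
          · exact sup_le le_sup_left (le_sup_right.trans le_sup_right))
        exact haz (by rw [← h1]; exact le_sup_left)
      have hins : ∀ d, d ∉ W → d ≠ c → SupIrred d → ¬ c ≤ d ⊔ W.sup id := by
        intro d hd hdc hdi
        have h1 := ih (insert d W) c (by rw [Finset.card_insert_of_notMem hd]; omega)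
          (fun j hj => by
            rcases Finset.mem_insert.1 hj with h | h
            · rw [h]; exact hdi
            · exact hWi j h) hci (by
            rw [Finset.mem_insert, not_or]
            exact ⟨hdc.symm, Finset.notMem_erase c Z⟩)
        rwa [Finset.sup_insert] at h1
      have haW : a ∉ W := fun h => haS (Finset.mem_of_mem_erase (Finset.mem_of_mem_erase h))
      have hbW : b ∉ W := fun h => Finset.notMem_erase b S (Finset.mem_of_mem_erase h)
      have h2 := hinj c hci (b ⊔ W.sup id) (a ⊔ W.sup id) (hins b hbW hcb.symm hbi)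
        (hins a haW hac ha) (by
          have e1 : c ⊔ (b ⊔ W.sup id) = b ⊔ Z.sup id := by rw [hZw]; exact sup_left_comm _ _ _
          have e2 : c ⊔ (a ⊔ W.sup id) = a ⊔ Z.sup id := by rw [hZw]; exact sup_left_comm _ _ _
          rw [e1, e2]
          apply le_antisymm
          · exact sup_le hbv le_sup_right
          · refine sup_le ?_ le_sup_right
            rw [← hSz]; exact hle)
      have h3 := ih (insert b W) a (by rw [Finset.card_insert_of_notMem hbW]; omega)
        (fun j hj => by
          rcases Finset.mem_insert.1 hj with h | h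
          · rw [h]; exact hbi
          · exact hWi j h) ha (by
          rw [Finset.mem_insert, not_or]
          exact ⟨hab, haW⟩)
      apply h3
      rw [Finset.sup_insert]
      change a ≤ b ⊔ W.sup id
      rw [h2]
      exact le_sup_left
    · have hS1 : S = {b} := by
        rw [← Finset.insert_erase hb, Finset.not_nonempty_iff_eq_empty.1 hZ]
        rfl
      rw [hS1, Finset.sup_singleton] at hle
      obtain ⟨y, hy, hyb⟩ := hL a b ha hle
      rcases hbi.2 hyb with h | h
      · exact hab h
      · exact hy (by rw [h]; exact hle)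

theorem good_needed (hL : Needed L) : Good L := by
  classical
  by_cases hs : Strong L
  · exact Or.inl hs
  have hge : ∀ j : L, SupIrred j → Nat.card L ≤ 2 * Nat.card {U : L // j ≤ U} := by
    intro j hj
    by_contra h
    push Not at h
    exact hs ⟨j, hj, h⟩
  have hinj := fun j hj => inj_of_eq hL (j := j) hj (hge j hj)
  have hfin : Finite L := inferInstance
  have := Fintype.ofFinite L
  -- the isomorphism with the lattice of all sets of join-irreducible elements
  let J := {j : L // SupIrred j}
  have hJfin : Finite J := inferInstance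
  have hJf := Fintype.ofFinite J
  have hdec : ∀ x : L, (Finset.univ.filter (fun j : L => SupIrred j ∧ j ≤ x)).sup id = x := by
    intro x
    apply le_antisymm
    · refine Finset.sup_le fun j hj => ?_
      exact (Finset.mem_filter.1 hj).2.2
    · obtain ⟨s, hs1, hs2⟩ := exists_supIrred_decomposition x
      conv_lhs => rw [← hs1]
      refine Finset.sup_mono fun j hj => ?_
      rw [Finset.mem_filter]
      refine ⟨Finset.mem_univ _, hs2 hj, ?_⟩
      rw [← hs1]
      exact Finset.le_sup (f := id) hj
  let e : L ≃o Set J :=
    { toFun := fun x => {j | j.1 ≤ x}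
      invFun := fun S => (Finset.univ.filter (fun j : L => ∃ h : SupIrred j, (⟨j, h⟩ : J) ∈ S)).sup id
      left_inv := by
        intro x
        have h1 : (Finset.univ.filter (fun j : L => ∃ h : SupIrred j,
            (⟨j, h⟩ : J) ∈ {j : J | j.1 ≤ x})) =
            (Finset.univ.filter (fun j : L => SupIrred j ∧ j ≤ x)) := by
          ext j
          simp only [Finset.mem_filter, Finset.mem_univ, true_and, Set.mem_ofPred_eq]
          constructor
          · rintro ⟨h1, h2⟩; exact ⟨h1, h2⟩
          · rintro ⟨h1, h2⟩; exact ⟨h1, h2⟩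
        change (Finset.univ.filter (fun j : L => ∃ h : SupIrred j,
            (⟨j, h⟩ : J) ∈ {j : J | j.1 ≤ x})).sup id = x
        rw [h1]
        exact hdec x
      right_inv := by
        intro S
        ext ⟨j, hj⟩
        simp only [Set.mem_ofPred_eq]
        constructor
        · intro h
          by_contra hjS
          refine indep hL hinj _ _ j le_rfl ?_ hj ?_ h
          · intro i hi
            exact (Finset.mem_filter.1 hi).2.choose
          · intro hi
            obtain ⟨_, h1⟩ := (Finset.mem_filter.1 hi).2
            exact hjS h1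
        · intro h
          exact Finset.le_sup (f := id) (Finset.mem_filter.2 ⟨Finset.mem_univ _, hj, h⟩)
      map_rel_iff' := by
        intro x y
        constructor
        · intro h
          have h' : ∀ j : J, j.1 ≤ x → j.1 ≤ y := h
          rw [← hdec x]
          refine Finset.sup_le fun j hj => ?_
          obtain ⟨-, h1, h2⟩ := Finset.mem_filter.1 hj
          exact h' ⟨j, h1⟩ h2
        · intro h
          change ∀ j : J, j.1 ≤ x → j.1 ≤ y
          exact fun j hj => hj.trans h }
  exact (good_modular _ (Set J) le_rfl).congr e.symm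

end Pool.Agent.T2H46.PoonenSec
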